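import Pool.Agent.Lib.MP_61cf81_al.Data211

/-!
# The certificate for the representation `(2,1,1)`
-/

set_option autoImplicit false
set_option maxRecDepth 100000

open scoped ComplexConjugate

namespace Pool.Agent.Lib.MP_61cf81_al.C211

theorem w_ok : wchk (fun g => g) WW = true := by decide +kernel

theorem psd0 : psdchk m0.K m0.s m0.Cs m0.Y = true := by decide +kernel

theorem psd1 : psdchk m1.K m1.s m1.Cs m1.Y = true := by decide +kernel

theorem fam0 : famok WW RT m0 = true := by decide +kernel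

theorem fam1 : famok WW RT m1 = true := by decide +kernel

theorem sum0 : psKK S (fterms m0.Y m0.rs m0.Ns) = P0 ∧
    asKK (fterms m0.Y m0.rs m0.Ns) = A0 := by decide +kernel

theorem sum1 : psKK S (fterms m1.Y m1.rs m1.Ns) = P1 ∧
    asKK (fterms m1.Y m1.rs m1.Ns) = A1 := by decide +kernel

theorem gok : ettc WW RT (gl (fun g => g) sg D) GN = true := by decide +kernel

theorem qok : ettc WW RT (dl Q) DN = true := by decide +kernel

theorem sumG : psKK S (ett (gl (fun g => g) sg D) GN) = PG ∧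
    asKK (ett (gl (fun g => g) sg D) GN) = AG := by decide +kernel

theorem sumD : psKK S (ett (dl Q) DN) = PD ∧ asKK (ett (dl Q) DN) = AD := by decide +kernel

theorem tot : P0 + P1 + PG + PD = 0 ∧ A0 + A1 + AG + AD < 2 ^ S ∧ 0 < D := by decide +kernel

theorem main {H : Fin 4 → Fin 4 → ℂ}
    (hH : ∀ i j, H j i = conj (H i j)) (hd : ∀ i, H i i = 1)
    (hp : ∀ z : Fin 4 → ℂ, 0 ≤ (∑ i, ∑ j, conj (z i) * H i j * z j).re)
    (hdet : (Matrix.of H).det = 0) (v : Fin 4 → ℂ) :
    0 ≤ (Gf (fun g => g) sg H v).re := by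
  refine cert (fun _ _ => rfl) (fun a g => ?_) hH hd hp hdet v w_ok S [m0, m1] ?_ tot.2.2
    gok qok ?_ ?_
  · rw [sg_eq, sg_eq, Equiv.Perm.sign_mul, mul_comm, ← Equiv.Perm.sign_mul,
      mul_inv_cancel_left]
  · intro m hm
    simp only [List.mem_cons, List.not_mem_nil, or_false] at hm
    rcases hm with rfl | rfl
    · exact ⟨psd0, fam0⟩
    · exact ⟨psd1, fam1⟩
  · simp only [List.map_cons, List.map_nil, List.sum_cons, List.sum_nil]
    rw [sum0.1, sum1.1, sumG.1, sumD.1, add_zero]
    exact tot.1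
  · simp only [List.map_cons, List.map_nil, List.sum_cons, List.sum_nil]
    rw [sum0.2, sum1.2, sumG.2, sumD.2, add_zero]
    exact tot.2.1

end Pool.Agent.Lib.MP_61cf81_al.C211
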