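import Mathlib

/-!
# Kernel friendly linear algebra on integer lists

All functions that the kernel evaluates are written with explicit recursors.
-/

set_option autoImplicit false

namespace Pool.Agent.Lib.MP_61cf81_al

/-! ### Sparse packed sums -/

/-- packed sum -/
def psum (B : ℤ) (l : List (ℕ × ℤ)) : ℤ := (l.map (fun t => t.2 * B ^ t.1)).sum

/-- sum of absolute values -/
def asum (l : List (ℕ × ℤ)) : ℤ := (l.map (fun t => |t.2|)).sum

/-- evaluation at a real valued function -/
def esum (e : ℕ → ℝ) (l : List (ℕ × ℤ)) : ℝ := (l.map (fun t => (t.2 : ℝ) * e t.1)).sum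

lemma asum_nonneg (l : List (ℕ × ℤ)) : 0 ≤ asum l := by
  unfold asum
  apply List.sum_nonneg
  intro x hx
  rw [List.mem_map] at hx
  obtain ⟨t, _, rfl⟩ := hx
  exact abs_nonneg _

/-- auxiliary: constant part -/
def cpart (l : List (ℕ × ℤ)) : ℤ := (l.map (fun t => if t.1 = 0 then t.2 else 0)).sum

/-- auxiliary: the rest, shifted -/
def spart (l : List (ℕ × ℤ)) : List (ℕ × ℤ) :=
  l.map (fun t => if t.1 = 0 then (0, 0) else (t.1 - 1, t.2))

lemma psum_split (B : ℤ) (l : List (ℕ × ℤ)) : psum B l = cpart l + B * psum B (spart l) := by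
  induction l with
  | nil => simp [psum, cpart, spart]
  | cons t l ih =>
    have h1 : psum B (t :: l) = t.2 * B ^ t.1 + psum B l := by simp [psum]
    have h2 : cpart (t :: l) = (if t.1 = 0 then t.2 else 0) + cpart l := by simp [cpart]
    have h3 : psum B (spart (t :: l)) = (if t.1 = 0 then (0 : ℤ) else t.2 * B ^ (t.1 - 1))
        + psum B (spart l) := by
      by_cases h : t.1 = 0 <;> simp [psum, spart, h]
    rw [h1, h2, h3, ih]
    by_cases h : t.1 = 0
    · simp [h]; ring
    · have : B ^ t.1 = B * B ^ (t.1 - 1) := by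
        rw [← pow_succ']; congr 1; omega
      simp only [h, if_false, this]; ring

lemma esum_split (e : ℕ → ℝ) (l : List (ℕ × ℤ)) :
    esum e l = (cpart l : ℝ) * e 0 + esum (fun k => e (k + 1)) (spart l) := by
  induction l with
  | nil => simp [esum, cpart, spart]
  | cons t l ih =>
    have h1 : esum e (t :: l) = (t.2 : ℝ) * e t.1 + esum e l := by simp [esum]
    have h2 : (cpart (t :: l) : ℝ) = (if t.1 = 0 then (t.2 : ℝ) else 0) + cpart l := by
      simp [cpart]
    have h3 : esum (fun k => e (k + 1)) (spart (t :: l)) =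
        (if t.1 = 0 then (0 : ℝ) else (t.2 : ℝ) * e t.1) + esum (fun k => e (k + 1)) (spart l) := by
      by_cases h : t.1 = 0
      · simp [esum, spart, h]
      · have : t.1 - 1 + 1 = t.1 := by omega
        simp [esum, spart, h, this]
    rw [h1, h2, h3, ih]
    by_cases h : t.1 = 0
    · simp [h]; ring
    · simp [h]; ring

lemma abs_cpart_le (l : List (ℕ × ℤ)) : |cpart l| ≤ asum l := by
  induction l with
  | nil => simp [cpart, asum]
  | cons t l ih =>
    have h2 : cpart (t :: l) = (if t.1 = 0 then t.2 else 0) + cpart l := by simp [cpart]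
    have h3 : asum (t :: l) = |t.2| + asum l := by simp [asum]
    rw [h2, h3]
    refine (abs_add_le _ _).trans (add_le_add ?_ ih)
    by_cases h : t.1 = 0 <;> simp [h]

lemma asum_spart_le (l : List (ℕ × ℤ)) : asum (spart l) ≤ asum l := by
  induction l with
  | nil => simp [asum, spart]
  | cons t l ih =>
    have h2 : asum (spart (t :: l)) = (if t.1 = 0 then 0 else |t.2|) + asum (spart l) := by
      by_cases h : t.1 = 0 <;> simp [asum, spart, h]
    have h3 : asum (t :: l) = |t.2| + asum l := by simp [asum]
    rw [h2, h3]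
    refine add_le_add ?_ ih
    by_cases h : t.1 = 0 <;> simp [h]

lemma esum_eq_zero_aux (B : ℤ) : ∀ (n : ℕ) (l : List (ℕ × ℤ)),
    (∀ t ∈ l, t.2 ≠ 0 → t.1 < n) → psum B l = 0 → asum l < B → ∀ e : ℕ → ℝ, esum e l = 0 := by
  intro n
  induction n with
  | zero =>
    intro l hl _ _ e
    unfold esum
    apply List.sum_eq_zero
    intro x hx
    rw [List.mem_map] at hx
    obtain ⟨t, ht, rfl⟩ := hx
    have : t.2 = 0 := by
      by_contra h
      exact absurd (hl t ht h) (Nat.not_lt_zero _)
    simp [this]
  | succ n ih =>
    intro l hl hp ha e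
    have hB : 0 < B := lt_of_le_of_lt (asum_nonneg l) ha
    rw [psum_split] at hp
    have hc : cpart l = 0 := by
      have h1 : B ∣ cpart l := ⟨-psum B (spart l), by linarith⟩
      have h2 : |cpart l| < B := lt_of_le_of_lt (abs_cpart_le l) ha
      exact Int.eq_zero_of_abs_lt_dvd h1 h2
    have hs : psum B (spart l) = 0 := by
      rw [hc, zero_add] at hp
      rcases mul_eq_zero.1 hp with h | h
      · exact absurd h hB.ne'
      · exact h
    rw [esum_split, hc]
    rw [ih (spart l) ?_ hs (lt_of_le_of_lt (asum_spart_le l) ha)]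
    · simp
    · intro t ht hne
      unfold spart at ht
      rw [List.mem_map] at ht
      obtain ⟨s, hs', rfl⟩ := ht
      by_cases h : s.1 = 0
      · simp [h] at hne
      · simp only [h, if_false] at hne ⊢
        have := hl s hs' hne
        omega

/-- **Packed sums determine all linear functionals.** -/
theorem esum_eq_zero {B : ℤ} {l : List (ℕ × ℤ)} (hp : psum B l = 0) (ha : asum l < B)
    (e : ℕ → ℝ) : esum e l = 0 := by
  obtain ⟨n, hn⟩ : ∃ n, ∀ t ∈ l, t.1 < n := by
    induction l with
    | nil => exact ⟨0, by simp⟩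
    | cons t l ih =>
      refine ⟨(l.map Prod.fst).foldr max (t.1) + 1, ?_⟩
      intro s hs
      have : ∀ (m : List ℕ) (a : ℕ), a ≤ m.foldr max a ∧ ∀ x ∈ m, x ≤ m.foldr max a := by
        intro m a
        induction m with
        | nil => simp
        | cons y m ihm =>
          simp only [List.foldr_cons, List.mem_cons, forall_eq_or_imp]
          refine ⟨le_trans ihm.1 (le_max_right _ _), le_max_left _ _, ?_⟩
          intro x hx
          exact le_trans (ihm.2 x hx) (le_max_right _ _)
      rw [List.mem_cons] at hs
      rcases hs with rfl | hs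
      · exact Nat.lt_succ_of_le (this _ _).1
      · exact Nat.lt_succ_of_le ((this _ _).2 _ (List.mem_map_of_mem hs))
  exact esum_eq_zero_aux B n l (fun t ht _ => hn t ht) hp ha e

/-! ### Encoding of monomials -/

/-- code of a list of factors -/
def enc (F : List ℕ) : ℕ := (F.map (fun f => 32 ^ f)).sum

lemma enc_perm {F G : List ℕ} (hF : F.length ≤ 15) (hG : G.length ≤ 15) (h : enc F = enc G) :
    F.Perm G := by
  rw [List.perm_iff_count]
  intro j
  have key := esum_eq_zero (B := 32)
    (l := F.map (fun f => (f, (1 : ℤ))) ++ G.map (fun f => (f, (-1 : ℤ)))) ?_ ?_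
    (fun k => if k = j then 1 else 0)
  · have h1 : ∀ (L : List ℕ) (c : ℤ), esum (fun k => if k = j then 1 else 0)
        (L.map (fun f => (f, c))) = (c : ℝ) * (L.count j : ℝ) := by
      intro L c
      induction L with
      | nil => simp [esum]
      | cons a L ih =>
        have : esum (fun k => if k = j then (1 : ℝ) else 0) ((a :: L).map (fun f => (f, c))) =
          (c : ℝ) * (if a = j then 1 else 0) + esum (fun k => if k = j then 1 else 0)
            (L.map (fun f => (f, c))) := by simp [esum]
        rw [this, ih, List.count_cons]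
        by_cases h : a = j
        · simp [h]; ring
        · simp [h]
    have h2 : ∀ (L M : List (ℕ × ℤ)) (e : ℕ → ℝ), esum e (L ++ M) = esum e L + esum e M := by
      intro L M e; simp [esum]
    rw [h2, h1, h1] at key
    have : (F.count j : ℝ) = G.count j := by push_cast at key; linarith
    exact_mod_cast this
  · have h1 : ∀ (L : List ℕ) (c : ℤ), psum 32 (L.map (fun f => (f, c))) = c * (enc L : ℤ) := by
      intro L c
      induction L with
      | nil => simp [psum, enc]
      | cons a L ih =>
        have e1 : psum 32 ((a :: L).map (fun f => (f, c))) = c * 32 ^ a +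
            psum 32 (L.map (fun f => (f, c))) := by simp [psum]
        have e2 : (enc (a :: L) : ℤ) = 32 ^ a + enc L := by simp [enc]
        rw [e1, e2, ih]; ring
    have h2 : ∀ (L M : List (ℕ × ℤ)), psum 32 (L ++ M) = psum 32 L + psum 32 M := by
      intro L M; simp [psum]
    rw [h2, h1, h1, h]; ring
  · have h1 : ∀ (L : List ℕ) (c : ℤ), asum (L.map (fun f => (f, c))) = |c| * (L.length : ℤ) := by
      intro L c
      induction L with
      | nil => simp [asum]
      | cons a L ih =>
        have e1 : asum ((a :: L).map (fun f => (f, c))) = |c| + asum (L.map (fun f => (f, c))) := by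
          simp [asum]
        rw [e1, ih]; push_cast [List.length_cons]; ring
    have h2 : ∀ (L M : List (ℕ × ℤ)), asum (L ++ M) = asum L + asum M := by
      intro L M; simp [asum]
    rw [h2, h1, h1]
    have : ((F.length : ℤ)) ≤ 15 := by exact_mod_cast hF
    have : ((G.length : ℤ)) ≤ 15 := by exact_mod_cast hG
    simp
    linarith

end Pool.Agent.Lib.MP_61cf81_al
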