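import Mathlib
import Pool.Agent.Lib.MP_61cf81_al.Core

/-!
# Quadratic forms given by integer lists
-/

set_option autoImplicit false

namespace Pool.Agent.Lib.MP_61cf81_al

/-! ### Kernel functions -/

noncomputable def nthL {α : Type} (d : α) (l : List α) : ℕ → α :=
  List.rec (motive := fun _ => ℕ → α) (fun _ => d)
    (fun x _ ih k => Nat.rec (motive := fun _ => α) x (fun k' _ => ih k') k) l

lemma nthL_nil {α : Type} (d : α) (k : ℕ) : nthL d [] k = d := rfl
lemma nthL_cons_zero {α : Type} (d x : α) (l : List α) : nthL d (x :: l) 0 = x := rfl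
lemma nthL_cons_succ {α : Type} (d x : α) (l : List α) (k : ℕ) :
    nthL d (x :: l) (k + 1) = nthL d l k := rfl

/-- `xs + c * ys` -/
noncomputable def addS (c : ℤ) (xs : List ℤ) : List ℤ → List ℤ :=
  List.rec (motive := fun _ => List ℤ → List ℤ)
    (fun ys => List.rec (motive := fun _ => List ℤ) [] (fun y _ ih => Int.mul c y :: ih) ys)
    (fun x xs' ih ys => List.rec (motive := fun _ => List ℤ) (x :: xs')
      (fun y ys' _ => Int.add x (Int.mul c y) :: ih ys') ys) xs

lemma addS_nil_nil (c : ℤ) : addS c [] [] = [] := rfl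
lemma addS_nil_cons (c y : ℤ) (ys : List ℤ) : addS c [] (y :: ys) = c * y :: addS c [] ys := rfl
lemma addS_cons_nil (c x : ℤ) (xs : List ℤ) : addS c (x :: xs) [] = x :: xs := rfl
lemma addS_cons_cons (c x y : ℤ) (xs ys : List ℤ) :
    addS c (x :: xs) (y :: ys) = (x + c * y) :: addS c xs ys := rfl

/-- combination of rows -/
noncomputable def rowcomb (col : List (ℕ × ℤ)) (Y : List (List ℤ)) : List ℤ :=
  List.rec (motive := fun _ => List ℤ) [] (fun p _ ih => addS p.2 ih (nthL [] Y p.1)) col

lemma rowcomb_nil (Y : List (List ℤ)) : rowcomb [] Y = [] := rfl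
lemma rowcomb_cons (p : ℕ × ℤ) (col : List (ℕ × ℤ)) (Y : List (List ℤ)) :
    rowcomb (p :: col) Y = addS p.2 (rowcomb col Y) (nthL [] Y p.1) := rfl

/-- put a new column in front -/
noncomputable def zipcons (V : List ℤ) : List (List ℤ) → List (List ℤ) :=
  List.rec (motive := fun _ => List (List ℤ) → List (List ℤ))
    (fun T => List.rec (motive := fun _ => List (List ℤ)) [] (fun t _ ih => (0 :: t) :: ih) T)
    (fun v _ ih T => List.rec (motive := fun _ => List (List ℤ)) ([v] :: ih [])
      (fun t ts _ => (v :: t) :: ih ts) T) V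

lemma zipcons_nil_nil : zipcons [] [] = [] := rfl
lemma zipcons_nil_cons (t : List ℤ) (ts : List (List ℤ)) :
    zipcons [] (t :: ts) = (0 :: t) :: zipcons [] ts := rfl
lemma zipcons_cons_nil (v : ℤ) (vs : List ℤ) : zipcons (v :: vs) [] = [v] :: zipcons vs [] := rfl
lemma zipcons_cons_cons (v : ℤ) (vs : List ℤ) (t : List ℤ) (ts : List (List ℤ)) :
    zipcons (v :: vs) (t :: ts) = (v :: t) :: zipcons vs ts := rfl

/-- subtract the outer product `xs ⊗ x0` -/
noncomputable def outer (x0 : List ℤ) (xs : List ℤ) : List (List ℤ) → List (List ℤ) :=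
  List.rec (motive := fun _ => List (List ℤ) → List (List ℤ))
    (fun Y => Y)
    (fun c _ ih Y => List.rec (motive := fun _ => List (List ℤ)) (addS (-c) [] x0 :: ih [])
      (fun y ys _ => addS (-c) y x0 :: ih ys) Y) xs

lemma outer_nil (x0 : List ℤ) (Y : List (List ℤ)) : outer x0 [] Y = Y := rfl
lemma outer_cons_nil (x0 : List ℤ) (c : ℤ) (cs : List ℤ) :
    outer x0 (c :: cs) [] = addS (-c) [] x0 :: outer x0 cs [] := rfl
lemma outer_cons_cons (x0 : List ℤ) (c : ℤ) (cs : List ℤ) (y : List ℤ) (ys : List (List ℤ)) :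
    outer x0 (c :: cs) (y :: ys) = addS (-c) y x0 :: outer x0 cs ys := rfl

/-- subtract all the squares -/
noncomputable def outerAll (Cs : List (List ℤ)) (Y : List (List ℤ)) : List (List ℤ) :=
  List.rec (motive := fun _ => List (List ℤ)) Y (fun x _ ih => outer x x ih) Cs

lemma outerAll_nil (Y : List (List ℤ)) : outerAll [] Y = Y := rfl
lemma outerAll_cons (x : List ℤ) (Cs : List (List ℤ)) (Y : List (List ℤ)) :
    outerAll (x :: Cs) Y = outer x x (outerAll Cs Y) := rfl

/-- scale a matrix -/
noncomputable def scaleM (c : ℤ) (Y : List (List ℤ)) : List (List ℤ) :=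
  List.rec (motive := fun _ => List (List ℤ)) [] (fun y _ ih => addS c [] y :: ih) Y

lemma scaleM_nil (c : ℤ) : scaleM c [] = [] := rfl
lemma scaleM_cons (c : ℤ) (y : List ℤ) (Y : List (List ℤ)) :
    scaleM c (y :: Y) = addS c [] y :: scaleM c Y := rfl

/-- sum of the absolute values -/
noncomputable def absl (xs : List ℤ) : ℕ :=
  List.rec (motive := fun _ => ℕ) 0 (fun x _ ih => Nat.add x.natAbs ih) xs

lemma absl_nil : absl [] = 0 := rfl
lemma absl_cons (x : ℤ) (xs : List ℤ) : absl (x :: xs) = x.natAbs + absl xs := rfl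

/-- bounded universal quantifier -/
noncomputable def allN (p : ℕ → Bool) (n : ℕ) : Bool :=
  Nat.rec (motive := fun _ => Bool) true (fun i ih => and (p i) ih) n

lemma allN_iff (p : ℕ → Bool) (n : ℕ) : allN p n = true ↔ ∀ i < n, p i = true := by
  induction n with
  | zero => simp [allN]
  | succ n ih =>
    have : allN p (n + 1) = (p n && allN p n) := rfl
    rw [this, Bool.and_eq_true, ih]
    constructor
    · rintro ⟨h1, h2⟩ i hi
      rcases Nat.lt_succ_iff_lt_or_eq.1 hi with h | rfl
      · exact h2 i h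
      · exact h1
    · intro h
      exact ⟨h n (Nat.lt_succ_self n), fun i hi => h i (Nat.lt_succ_of_lt hi)⟩

noncomputable def allL {α : Type} (p : α → Bool) (l : List α) : Bool :=
  List.rec (motive := fun _ => Bool) true (fun x _ ih => and (p x) ih) l

lemma allL_iff {α : Type} (p : α → Bool) (l : List α) :
    allL p l = true ↔ ∀ x ∈ l, p x = true := by
  induction l with
  | nil => simp [allL]
  | cons x l ih =>
    have : allL p (x :: l) = (p x && allL p l) := rfl
    rw [this, Bool.and_eq_true, ih]
    simp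

noncomputable def lenL {α : Type} (l : List α) : ℕ :=
  List.rec (motive := fun _ => ℕ) 0 (fun _ _ ih => Nat.succ ih) l

lemma lenL_eq {α : Type} (l : List α) : lenL l = l.length := by
  induction l with
  | nil => rfl
  | cons x l ih =>
    have : lenL (x :: l) = Nat.succ (lenL l) := rfl
    rw [this, ih]; rfl

/-- the diagonal dominance check -/
noncomputable def domchk (K : ℕ) (E : List (List ℤ)) : Bool :=
  and (Nat.ble (lenL E) K) (and (allL (fun r => Nat.ble (lenL r) K) E)
    (allN (fun l => and
      (Int.rec (motive := fun _ => Bool) (fun d => Nat.ble (absl (nthL [] E l)) (Nat.mul 2 d))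
        (fun _ => false) (nthL 0 (nthL [] E l) l))
      (allN (fun k => decide (nthL 0 (nthL [] E l) k = nthL 0 (nthL [] E k) l)) K)) K))

/-- the positive semidefiniteness check -/
noncomputable def psdchk (K s : ℕ) (Cs Y : List (List ℤ)) : Bool :=
  domchk K (outerAll Cs (scaleM (Int.ofNat (Nat.succ s)) Y))

/-! ### Semantics -/

section sem

variable {E : Type} [AddCommGroup E] [Module ℝ E]

/-- linear combination -/
def evl : List ℤ → (ℕ → E) → E
  | [], _ => 0
  | x :: xs, z => (x : ℝ) • z 0 + evl xs (fun k => z (k + 1))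

lemma evl_nil (z : ℕ → E) : evl [] z = 0 := rfl
lemma evl_cons (x : ℤ) (xs : List ℤ) (z : ℕ → E) :
    evl (x :: xs) z = (x : ℝ) • z 0 + evl xs (fun k => z (k + 1)) := rfl

lemma evl_addS (c : ℤ) : ∀ (xs ys : List ℤ) (z : ℕ → E),
    evl (addS c xs ys) z = evl xs z + (c : ℝ) • evl ys z := by
  intro xs
  induction xs with
  | nil =>
    intro ys
    induction ys with
    | nil => intro z; simp [addS_nil_nil, evl_nil]
    | cons y ys ih =>
      intro z
      rw [addS_nil_cons, evl_cons, evl_cons, ih, evl_nil, evl_nil, smul_add, smul_smul]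
      push_cast
      simp
  | cons x xs ih =>
    intro ys
    cases ys with
    | nil => intro z; simp [addS_cons_nil, evl_nil]
    | cons y ys =>
      intro z
      rw [addS_cons_cons, evl_cons, evl_cons, evl_cons, ih]
      push_cast
      module

lemma evl_smul (c : ℝ) (xs : List ℤ) : ∀ (z : ℕ → E),
    evl xs (fun k => c • z k) = c • evl xs z := by
  induction xs with
  | nil => intro z; simp [evl_nil]
  | cons x xs ih =>
    intro z
    rw [evl_cons, evl_cons, ih (fun k => z (k + 1))]
    module

lemma evl_add (xs : List ℤ) : ∀ (z w : ℕ → E),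
    evl xs (fun k => z k + w k) = evl xs z + evl xs w := by
  induction xs with
  | nil => intro z w; simp [evl_nil]
  | cons x xs ih =>
    intro z w
    rw [evl_cons, evl_cons, evl_cons, ih (fun k => z (k + 1)) (fun k => w (k + 1))]
    module

lemma evl_zero (xs : List ℤ) : evl xs (fun _ => (0 : E)) = 0 := by
  induction xs with
  | nil => rfl
  | cons x xs ih => rw [evl_cons, ih]; simp

lemma evl_smul_right (xs : List ℤ) : ∀ (f : ℕ → ℝ) (v : E),
    evl xs (fun k => f k • v) = (evl xs f) • v := by
  induction xs with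
  | nil => intro f v; simp [evl_nil]
  | cons x xs ih =>
    intro f v
    rw [evl_cons, evl_cons, ih (fun k => f (k + 1))]
    simp only [smul_eq_mul]
    module

lemma evl_eq_sum (K : ℕ) : ∀ (xs : List ℤ) (z : ℕ → E), xs.length ≤ K →
    evl xs z = ∑ k ∈ Finset.range K, ((nthL 0 xs k : ℤ) : ℝ) • z k := by
  induction K with
  | zero =>
    intro xs z h
    have : xs = [] := List.eq_nil_of_length_eq_zero (Nat.le_zero.1 h)
    subst this
    simp [evl_nil]
  | succ K ih =>
    intro xs z h
    cases xs with
    | nil =>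
      rw [evl_nil]
      symm
      apply Finset.sum_eq_zero
      intro k _
      rw [nthL_nil]; simp
    | cons x xs =>
      rw [Finset.sum_range_succ', evl_cons, ih xs _ (by simpa using h), add_comm]
      rfl

/-- bilinear evaluation of a matrix -/
def evB (B : LinearMap.BilinForm ℝ E) : List (List ℤ) → (ℕ → E) → (ℕ → E) → ℝ
  | [], _, _ => 0
  | y :: ys, z, w => B (z 0) (evl y w) + evB B ys (fun k => z (k + 1)) w

variable (B : LinearMap.BilinForm ℝ E)

lemma evB_nil (z w : ℕ → E) : evB B [] z w = 0 := rfl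
lemma evB_cons (y : List ℤ) (ys : List (List ℤ)) (z w : ℕ → E) :
    evB B (y :: ys) z w = B (z 0) (evl y w) + evB B ys (fun k => z (k + 1)) w := rfl

lemma evB_outer (x0 : List ℤ) : ∀ (xs : List ℤ) (Y : List (List ℤ)) (z w : ℕ → E),
    evB B (outer x0 xs Y) z w = evB B Y z w - B (evl xs z) (evl x0 w) := by
  intro xs
  induction xs with
  | nil => intro Y z w; simp [outer_nil, evl_nil]
  | cons c cs ih =>
    intro Y z w
    cases Y with
    | nil =>
      rw [outer_cons_nil, evB_cons, ih, evB_nil, evB_nil, evl_cons, evl_addS, evl_nil]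
      simp
      ring
    | cons y ys =>
      rw [outer_cons_cons, evB_cons, ih, evB_cons, evl_cons, evl_addS]
      simp
      ring

lemma evB_outerAll (hpos : ∀ x, 0 ≤ B x x) (Cs Y : List (List ℤ)) (z : ℕ → E) :
    evB B (outerAll Cs Y) z z ≤ evB B Y z z := by
  induction Cs with
  | nil => exact le_rfl
  | cons x Cs ih =>
    rw [outerAll_cons, evB_outer]
    have := hpos (evl x z)
    linarith

lemma evB_scaleM (c : ℤ) : ∀ (Y : List (List ℤ)) (z w : ℕ → E),
    evB B (scaleM c Y) z w = (c : ℝ) * evB B Y z w := by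
  intro Y
  induction Y with
  | nil => intro z w; simp [scaleM_nil, evB_nil]
  | cons y Y ih =>
    intro z w
    rw [scaleM_cons, evB_cons, evB_cons, ih, evl_addS, evl_nil]
    simp
    ring

lemma evB_eq_sum (K : ℕ) : ∀ (Y : List (List ℤ)) (z w : ℕ → E), Y.length ≤ K →
    evB B Y z w = ∑ l ∈ Finset.range K, B (z l) (evl (nthL [] Y l) w) := by
  induction K with
  | zero =>
    intro Y z w h
    have : Y = [] := List.eq_nil_of_length_eq_zero (Nat.le_zero.1 h)
    subst this
    simp [evB_nil]
  | succ K ih =>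
    intro Y z w h
    cases Y with
    | nil =>
      rw [evB_nil]
      symm
      apply Finset.sum_eq_zero
      intro k _
      rw [nthL_nil, evl_nil]; simp
    | cons y Y =>
      rw [Finset.sum_range_succ', evB_cons, ih Y _ _ (by simpa using h), add_comm]
      rfl

lemma absl_eq_sum (K : ℕ) : ∀ (xs : List ℤ), xs.length ≤ K →
    ((absl xs : ℕ) : ℝ) = ∑ k ∈ Finset.range K, |((nthL 0 xs k : ℤ) : ℝ)| := by
  induction K with
  | zero =>
    intro xs h
    have : xs = [] := List.eq_nil_of_length_eq_zero (Nat.le_zero.1 h)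
    subst this
    simp [absl_nil]
  | succ K ih =>
    intro xs h
    cases xs with
    | nil =>
      rw [absl_nil]
      symm
      simp [nthL_nil]
    | cons x xs =>
      rw [Finset.sum_range_succ', absl_cons]
      push_cast
      rw [ih xs (by simpa using h), add_comm]
      simp only [nthL_cons_succ, nthL_cons_zero]
      rw [Nat.cast_natAbs, Int.cast_abs]

lemma dom_nonneg (hpos : ∀ x, 0 ≤ B x x) (hsymm : ∀ x y, B x y = B y x) (K : ℕ)
    (M : ℕ → ℕ → ℝ) (hM : ∀ l < K, ∀ k < K, M l k = M k l)
    (hd : ∀ l < K, ∑ k ∈ Finset.range K, |M l k| ≤ 2 * M l l) (z : ℕ → E) :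
    0 ≤ ∑ l ∈ Finset.range K, ∑ k ∈ Finset.range K, M l k * B (z l) (z k) := by
  have hB : ∀ x y, |B x y| ≤ (B x x + B y y) / 2 := by
    intro x y
    have h1 := hpos (x + y)
    have h2 := hpos (x - y)
    simp only [map_add, map_sub, LinearMap.add_apply, LinearMap.sub_apply] at h1 h2
    rw [hsymm y x] at h1 h2
    rw [abs_le]
    constructor <;> linarith
  have h1 : ∀ l ∈ Finset.range K, ∀ k ∈ Finset.range K,
      (if l = k then 2 * M l l * B (z l) (z l) else 0) -
        |M l k| * ((B (z l) (z l) + B (z k) (z k)) / 2) ≤ M l k * B (z l) (z k) := by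
    intro l hl k hk
    by_cases h : l = k
    · subst h
      have h0 : 0 ≤ M l l := by
        have := hd l (Finset.mem_range.1 hl)
        have h2 : (0 : ℝ) ≤ ∑ k ∈ Finset.range K, |M l k| :=
          Finset.sum_nonneg (fun _ _ => abs_nonneg _)
        linarith
      rw [if_pos rfl, abs_of_nonneg h0]
      have := hpos (z l)
      nlinarith
    · rw [if_neg h]
      have h2 : |M l k * B (z l) (z k)| ≤ |M l k| * ((B (z l) (z l) + B (z k) (z k)) / 2) := by
        rw [abs_mul]
        exact mul_le_mul_of_nonneg_left (hB _ _) (abs_nonneg _)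
      have h3 := neg_abs_le (M l k * B (z l) (z k))
      linarith
  refine le_trans ?_ (Finset.sum_le_sum (fun l hl => Finset.sum_le_sum (h1 l hl)))
  have h2 : ∑ l ∈ Finset.range K, ∑ k ∈ Finset.range K,
      ((if l = k then 2 * M l l * B (z l) (z l) else 0) -
        |M l k| * ((B (z l) (z l) + B (z k) (z k)) / 2)) =
      ∑ l ∈ Finset.range K, (2 * M l l - ∑ k ∈ Finset.range K, |M l k|) * B (z l) (z l) := by
    have e1 : ∑ l ∈ Finset.range K, ∑ k ∈ Finset.range K,
        |M l k| * ((B (z l) (z l) + B (z k) (z k)) / 2) =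
        ∑ l ∈ Finset.range K, (∑ k ∈ Finset.range K, |M l k|) * B (z l) (z l) := by
      have e2 : ∑ l ∈ Finset.range K, ∑ k ∈ Finset.range K,
          |M l k| * (B (z k) (z k) / 2) = ∑ l ∈ Finset.range K, ∑ k ∈ Finset.range K,
          |M l k| * (B (z l) (z l) / 2) := by
        rw [Finset.sum_comm]
        apply Finset.sum_congr rfl
        intro l hl
        apply Finset.sum_congr rfl
        intro k hk
        rw [hM l (Finset.mem_range.1 hl) k (Finset.mem_range.1 hk)]
      have e3 : ∀ l k, |M l k| * ((B (z l) (z l) + B (z k) (z k)) / 2) =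
          |M l k| * (B (z l) (z l) / 2) + |M l k| * (B (z k) (z k) / 2) := by
        intro l k; ring
      simp only [e3, Finset.sum_add_distrib]
      rw [e2, ← Finset.sum_add_distrib]
      apply Finset.sum_congr rfl
      intro l _
      rw [Finset.sum_mul, ← Finset.sum_add_distrib]
      apply Finset.sum_congr rfl
      intro k _
      ring
    simp only [Finset.sum_sub_distrib]
    rw [e1, ← Finset.sum_sub_distrib]
    apply Finset.sum_congr rfl
    intro l hl
    rw [Finset.sum_ite_eq, if_pos hl]
    ring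
  rw [h2]
  apply Finset.sum_nonneg
  intro l hl
  apply mul_nonneg _ (hpos _)
  have := hd l (Finset.mem_range.1 hl)
  linarith

/-- **Soundness of the positive semidefiniteness check.** -/
theorem evB_nonneg (hpos : ∀ x, 0 ≤ B x x) (hsymm : ∀ x y, B x y = B y x) {K s : ℕ}
    {Cs Y : List (List ℤ)} (h : psdchk K s Cs Y = true) (z : ℕ → E) : 0 ≤ evB B Y z z := by
  unfold psdchk domchk at h
  set D := outerAll Cs (scaleM (Int.ofNat (Nat.succ s)) Y) with hD
  rw [Bool.and_eq_true, Bool.and_eq_true, Nat.ble_eq, lenL_eq, allL_iff, allN_iff] at h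
  obtain ⟨h1, h2, h3⟩ := h
  have hlen : ∀ l, (nthL [] D l).length ≤ K := by
    have : ∀ (D : List (List ℤ)), (∀ x ∈ D, x.length ≤ K) → ∀ l, (nthL [] D l).length ≤ K := by
      intro D
      induction D with
      | nil => intro _ l; simp [nthL_nil]
      | cons d D ih =>
        intro hx l
        cases l with
        | zero => exact hx d (by simp)
        | succ l => exact ih (fun x hx' => hx x (by simp [hx'])) l
    apply this
    intro x hx
    have := h2 x hx
    rwa [Nat.ble_eq, lenL_eq] at this
  have hDnn : 0 ≤ evB B D z z := by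
    rw [evB_eq_sum B K D z z h1]
    have e1 : ∀ l, B (z l) (evl (nthL [] D l) z) =
        ∑ k ∈ Finset.range K, ((nthL 0 (nthL [] D l) k : ℤ) : ℝ) * B (z l) (z k) := by
      intro l
      rw [evl_eq_sum K _ z (hlen l), map_sum]
      apply Finset.sum_congr rfl
      intro k _
      rw [map_smul, smul_eq_mul]
    simp only [e1]
    apply dom_nonneg B hpos hsymm K (fun l k => ((nthL 0 (nthL [] D l) k : ℤ) : ℝ))
    · intro l hl k hk
      have := h3 l hl
      rw [Bool.and_eq_true, allN_iff] at this
      have h4 := this.2 k hk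
      rw [decide_eq_true_eq] at h4
      simp only [h4]
    · intro l hl
      have := h3 l hl
      rw [Bool.and_eq_true] at this
      have h4 := this.1
      rw [← absl_eq_sum K _ (hlen l)]
      revert h4
      cases nthL 0 (nthL [] D l) l with
      | ofNat d =>
        intro h4
        have h5 : absl (nthL [] D l) ≤ 2 * d := Nat.le_of_ble_eq_true h4
        have h6 : ((absl (nthL [] D l) : ℕ) : ℝ) ≤ ((2 * d : ℕ) : ℝ) := by exact_mod_cast h5
        push_cast at h6
        simpa using h6
      | negSucc d => intro h4; exact absurd h4 (by simp)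
  have h5 := evB_outerAll B hpos Cs (scaleM (Int.ofNat (Nat.succ s)) Y) z
  rw [← hD, evB_scaleM] at h5
  have h6 : (0 : ℝ) < ((Int.ofNat (Nat.succ s) : ℤ) : ℝ) := by
    simp
    positivity
  have h7 := le_trans hDnn h5
  exact (mul_nonneg_iff_of_pos_left h6).1 h7

end sem

end Pool.Agent.Lib.MP_61cf81_al
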