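import Mathlib
import Pool.Agent.Lib.MP_61cf81_al.Lin

/-!
# Families of rows and their Gram sums
-/

set_option autoImplicit false

namespace Pool.Agent.Lib.MP_61cf81_al

/-- a row: coordinate, list of factors, coefficients in the face basis -/
structure Row where
  i : ℕ
  F : List ℕ
  col : List (ℕ × ℤ)

/-- conjugation of codes -/
def cc (f : ℕ) : ℕ :=
  bif Nat.blt f 16 then Nat.add (Nat.mul 4 (Nat.mod f 4)) (Nat.div f 4)
  else bif Nat.blt f 20 then Nat.add f 4 else Nat.add 16 (Nat.mod (Nat.sub f 20) 4)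

noncomputable def conjF (F : List ℕ) : List ℕ :=
  List.rec (motive := fun _ => List ℕ) [] (fun f _ ih => cc f :: ih) F

lemma conjF_eq (F : List ℕ) : conjF F = F.map cc := by
  induction F with
  | nil => rfl
  | cons f F ih =>
    have : conjF (f :: F) = cc f :: conjF F := rfl
    rw [this, ih]; rfl

noncomputable def hf (i j : ℕ) : List ℕ :=
  bif Nat.beq i j then [] else [Nat.add (Nat.mul 4 i) j]

/-- the transposed table of coefficients -/
noncomputable def Tof (Y : List (List ℤ)) (rs : List Row) : List (List ℤ) :=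
  List.rec (motive := fun _ => List (List ℤ)) []
    (fun r _ ih => zipcons (rowcomb r.col Y) ih) rs

lemma Tof_nil (Y : List (List ℤ)) : Tof Y [] = [] := rfl
lemma Tof_cons (Y : List (List ℤ)) (r : Row) (rs : List Row) :
    Tof Y (r :: rs) = zipcons (rowcomb r.col Y) (Tof Y rs) := rfl

/-- off diagonal terms of a row -/
noncomputable def trow (rs : List Row) : List ℤ → ℕ → List (ℕ × ℤ) :=
  List.rec (motive := fun _ => List ℤ → ℕ → List (ℕ × ℤ)) (fun _ _ => [])
    (fun _ _ ih R N => List.rec (motive := fun _ => List (ℕ × ℤ)) []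
      (fun x R' _ => (Nat.mod N 512, Int.mul 2 x) :: ih R' (Nat.div N 32768)) R) rs

lemma trow_nil (R : List ℤ) (N : ℕ) : trow [] R N = [] := rfl
lemma trow_cons_nil (r : Row) (rs : List Row) (N : ℕ) : trow (r :: rs) [] N = [] := rfl
lemma trow_cons_cons (r : Row) (rs : List Row) (x : ℤ) (R : List ℤ) (N : ℕ) :
    trow (r :: rs) (x :: R) N = (N % 512, 2 * x) :: trow rs R (N / 32768) := rfl

/-- all terms of the row `r`, including the diagonal one -/
noncomputable def frow (_r : Row) (rs : List Row) (R : List ℤ) (N : ℕ) : List (ℕ × ℤ) :=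
  List.rec (motive := fun _ => List (ℕ × ℤ)) []
    (fun x R' _ => (Nat.mod N 512, x) :: trow rs R' (Nat.div N 32768)) R

lemma frow_nil (r : Row) (rs : List Row) (N : ℕ) : frow r rs [] N = [] := rfl
lemma frow_cons (r : Row) (rs : List Row) (x : ℤ) (R : List ℤ) (N : ℕ) :
    frow r rs (x :: R) N = (N % 512, x) :: trow rs R (N / 32768) := rfl

/-- terms of a family, row by row -/
noncomputable def fterms (Y : List (List ℤ)) (rs : List Row) : List ℕ → List (List (ℕ × ℤ)) :=
  List.rec (motive := fun _ => List ℕ → List (List (ℕ × ℤ))) (fun _ => [])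
    (fun r rs' ih Ns => frow r rs' (rowcomb r.col (Tof Y (r :: rs'))) (nthL 0 Ns 0) ::
      ih (List.rec (motive := fun _ => List ℕ) [] (fun _ t _ => t) Ns)) rs

lemma fterms_nil (Y : List (List ℤ)) (Ns : List ℕ) : fterms Y [] Ns = [] := rfl
lemma fterms_cons (Y : List (List ℤ)) (r : Row) (rs : List Row) (Ns : List ℕ) :
    fterms Y (r :: rs) Ns = frow r rs (rowcomb r.col (Tof Y (r :: rs))) (nthL 0 Ns 0) ::
      fterms Y rs Ns.tail := by cases Ns <;> rfl

/-- the class check of a row -/
noncomputable def ckrow (ck : ℕ → ℕ → List ℕ → List ℕ → List ℕ → Bool) (Fa : List ℕ) (ia : ℕ)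
    (rs : List Row) : ℕ → Bool :=
  List.rec (motive := fun _ => ℕ → Bool) (fun _ => true)
    (fun r _ ih N => and (ck (Nat.mod (Nat.div N 512) 64) (Nat.mod N 512) Fa r.F (hf ia r.i))
      (ih (Nat.div N 32768))) rs

lemma ckrow_nil (ck : ℕ → ℕ → List ℕ → List ℕ → List ℕ → Bool) (Fa : List ℕ) (ia N : ℕ) :
    ckrow ck Fa ia [] N = true := rfl
lemma ckrow_cons (ck : ℕ → ℕ → List ℕ → List ℕ → List ℕ → Bool) (Fa : List ℕ) (ia N : ℕ)
    (r : Row) (rs : List Row) : ckrow ck Fa ia (r :: rs) N =
    (ck (N / 512 % 64) (N % 512) Fa r.F (hf ia r.i) && ckrow ck Fa ia rs (N / 32768)) := rfl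

/-- the class check of a family -/
noncomputable def fchk (ck : ℕ → ℕ → List ℕ → List ℕ → List ℕ → Bool) (rs : List Row) :
    List ℕ → Bool :=
  List.rec (motive := fun _ => List ℕ → Bool) (fun _ => true)
    (fun r rs' ih Ns => and (ckrow ck (conjF r.F) r.i (r :: rs') (nthL 0 Ns 0))
      (ih (List.rec (motive := fun _ => List ℕ) [] (fun _ t _ => t) Ns))) rs

lemma fchk_cons (ck : ℕ → ℕ → List ℕ → List ℕ → List ℕ → Bool) (r : Row) (rs : List Row)
    (Ns : List ℕ) : fchk ck (r :: rs) Ns =
    (ckrow ck (conjF r.F) r.i (r :: rs) (nthL 0 Ns 0) && fchk ck rs Ns.tail) := by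
  cases Ns <;> rfl

/-! ### Semantics -/

/-- coefficient function of a sparse list -/
def U (col : List (ℕ × ℤ)) (k : ℕ) : ℝ := (col.map (fun p => if p.1 = k then (p.2 : ℝ) else 0)).sum

lemma U_cons (p : ℕ × ℤ) (col : List (ℕ × ℤ)) (k : ℕ) :
    U (p :: col) k = (if p.1 = k then (p.2 : ℝ) else 0) + U col k := by simp [U]

/-- linear functionals on integer lists -/
structure IsLin (φ : List ℤ → ℝ) : Prop where
  nil : φ [] = 0
  add : ∀ c xs ys, φ (addS c xs ys) = φ xs + c * φ ys

/-- apply a functional to all rows -/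
def bl (φ : List ℤ → ℝ) : List (List ℤ) → (ℕ → ℝ) → ℝ
  | [], _ => 0
  | y :: ys, f => f 0 * φ y + bl φ ys (fun k => f (k + 1))

lemma bl_cons (φ : List ℤ → ℝ) (y : List ℤ) (ys : List (List ℤ)) (f : ℕ → ℝ) :
    bl φ (y :: ys) f = f 0 * φ y + bl φ ys (fun k => f (k + 1)) := rfl

lemma bl_add (φ : List ℤ → ℝ) : ∀ (Y : List (List ℤ)) (f g : ℕ → ℝ),
    bl φ Y (fun k => f k + g k) = bl φ Y f + bl φ Y g := by
  intro Y
  induction Y with
  | nil => intro f g; simp [bl]
  | cons y Y ih =>
    intro f g
    rw [bl_cons, bl_cons, bl_cons, ih (fun k => f (k + 1)) (fun k => g (k + 1))]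
    ring

lemma bl_zero (φ : List ℤ → ℝ) : ∀ (Y : List (List ℤ)), bl φ Y (fun _ => 0) = 0 := by
  intro Y
  induction Y with
  | nil => rfl
  | cons y Y ih => rw [bl_cons, ih]; ring

lemma bl_single (φ : List ℤ → ℝ) (h0 : φ [] = 0) (u : ℝ) : ∀ (Y : List (List ℤ)) (l : ℕ),
    bl φ Y (fun k => if l = k then u else 0) = u * φ (nthL [] Y l) := by
  intro Y
  induction Y with
  | nil => intro l; rw [nthL_nil, h0]; simp [bl]
  | cons y Y ih =>
    intro l
    rw [bl_cons]
    cases l with
    | zero =>
      have : (fun k : ℕ => if (0 : ℕ) = k + 1 then u else 0) = fun _ => 0 := by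
        funext k; simp
      rw [this, bl_zero, nthL_cons_zero]; simp
    | succ l =>
      have : (fun k : ℕ => if l + 1 = k + 1 then u else 0) = fun k => if l = k then u else 0 := by
        funext k; simp
      rw [this, ih, nthL_cons_succ]; simp

lemma rowcomb_lin {φ : List ℤ → ℝ} (h : IsLin φ) (Y : List (List ℤ)) :
    ∀ col : List (ℕ × ℤ), φ (rowcomb col Y) = bl φ Y (U col) := by
  intro col
  induction col with
  | nil =>
    rw [rowcomb_nil, h.nil]
    have : U [] = fun _ => 0 := by funext k; simp [U]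
    rw [this, bl_zero]
  | cons p col ih =>
    rw [rowcomb_cons, h.add, ih]
    have : U (p :: col) = fun k => (if p.1 = k then (p.2 : ℝ) else 0) + U col k := by
      funext k; exact U_cons p col k
    rw [this, bl_add, bl_single φ h.nil]
    ring

lemma isLin_evl (f : ℕ → ℝ) : IsLin (fun xs => evl xs f) :=
  ⟨rfl, fun c xs ys => by simp [evl_addS]⟩

/-- evaluation against a list of rows -/
def evz (g : Row → ℝ) : List Row → List ℤ → ℝ
  | [], _ => 0
  | _ :: _, [] => 0
  | r :: rs, x :: xs => x * g r + evz g rs xs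

lemma evz_addS (g : Row → ℝ) (c : ℤ) : ∀ (rs : List Row) (xs ys : List ℤ),
    evz g rs (addS c xs ys) = evz g rs xs + c * evz g rs ys := by
  intro rs
  induction rs with
  | nil => intro xs ys; simp [evz]
  | cons r rs ih =>
    intro xs ys
    cases xs with
    | nil =>
      cases ys with
      | nil => simp [addS_nil_nil, evz]
      | cons y ys =>
        rw [addS_nil_cons]
        simp only [evz]
        rw [ih]
        have : evz g rs [] = 0 := by cases rs <;> rfl
        rw [this]
        push_cast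
        ring
    | cons x xs =>
      cases ys with
      | nil => simp [addS_cons_nil, evz]
      | cons y ys =>
        rw [addS_cons_cons]
        simp only [evz]
        rw [ih]
        push_cast
        ring

lemma isLin_evz (g : Row → ℝ) (rs : List Row) : IsLin (evz g rs) :=
  ⟨by cases rs <;> rfl, fun c xs ys => evz_addS g c rs xs ys⟩

lemma bl_zipcons (g : Row → ℝ) (r : Row) (rs : List Row) : ∀ (V : List ℤ) (T : List (List ℤ))
    (f : ℕ → ℝ), bl (evz g (r :: rs)) (zipcons V T) f = evl V f * g r + bl (evz g rs) T f := by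
  intro V
  induction V with
  | nil =>
    intro T
    induction T with
    | nil => intro f; simp [zipcons_nil_nil, bl, evl_nil]
    | cons t ts ih =>
      intro f
      rw [zipcons_nil_cons, bl_cons, ih, evl_nil, bl_cons]
      simp [evz, evl_nil]
  | cons v vs ih =>
    intro T f
    cases T with
    | nil =>
      rw [zipcons_cons_nil, bl_cons, ih, evl_cons]
      have : evz g rs [] = 0 := by cases rs <;> rfl
      simp [evz, bl, this]
      ring
    | cons t ts =>
      rw [zipcons_cons_cons, bl_cons, ih, evl_cons, bl_cons]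
      simp [evz]
      ring

/-- the matrix form -/
def bil (Y : List (List ℤ)) (f g : ℕ → ℝ) : ℝ := bl (fun xs => evl xs g) Y f

lemma bl_Tof (Y : List (List ℤ)) (g : Row → ℝ) : ∀ (rs : List Row) (f : ℕ → ℝ),
    bl (evz g rs) (Tof Y rs) f = (rs.map (fun r => bil Y (U r.col) f * g r)).sum := by
  intro rs
  induction rs with
  | nil => intro f; simp [Tof_nil, bl]
  | cons r rs ih =>
    intro f
    rw [Tof_cons, bl_zipcons, ih, rowcomb_lin (isLin_evl f)]
    simp [bil]

lemma evz_rowcomb (Y : List (List ℤ)) (g : Row → ℝ) (rs : List Row) (col : List (ℕ × ℤ)) :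
    evz g rs (rowcomb col (Tof Y rs)) = (rs.map (fun r => bil Y (U r.col) (U col) * g r)).sum := by
  rw [rowcomb_lin (isLin_evz g rs), bl_Tof]

/-- the symmetric Gram sum of a family -/
def gsum (Y : List (List ℤ)) (β : Row → Row → ℝ) : List Row → ℝ
  | [] => 0
  | r :: rs => bil Y (U r.col) (U r.col) * β r r +
      2 * (rs.map (fun s => bil Y (U s.col) (U r.col) * β r s)).sum + gsum Y β rs

lemma esum_append (e : ℕ → ℝ) (l m : List (ℕ × ℤ)) : esum e (l ++ m) = esum e l + esum e m := by
  simp [esum]

lemma esum_cons (e : ℕ → ℝ) (t : ℕ × ℤ) (l : List (ℕ × ℤ)) :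
    esum e (t :: l) = (t.2 : ℝ) * e t.1 + esum e l := by simp [esum]

lemma esum_trow (e : ℕ → ℝ) (β : Row → ℝ) (ck : ℕ → ℕ → List ℕ → List ℕ → List ℕ → Bool)
    (Fa : List ℕ) (ia : ℕ) : ∀ (rs : List Row) (R : List ℤ) (N : ℕ),
    (∀ s ∈ rs, ∀ g c, ck g c Fa s.F (hf ia s.i) = true → e c = β s) →
    ckrow ck Fa ia rs N = true → esum e (trow rs R N) = 2 * evz β rs R := by
  intro rs
  induction rs with
  | nil => intro R N _ _; simp [trow_nil, esum, evz]
  | cons r rs ih =>
    intro R N hck h
    rw [ckrow_cons, Bool.and_eq_true] at h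
    cases R with
    | nil => simp [trow_cons_nil, esum, evz]
    | cons x R =>
      rw [trow_cons_cons, esum_cons, ih R _ (fun s hs => hck s (by simp [hs])) h.2,
        hck r (by simp) _ _ h.1]
      simp only [evz]
      push_cast
      ring

lemma esum_fterms (Y : List (List ℤ)) (e : ℕ → ℝ) (β : Row → Row → ℝ)
    (ck : ℕ → ℕ → List ℕ → List ℕ → List ℕ → Bool) : ∀ (rs : List Row) (Ns : List ℕ),
    (∀ r ∈ rs, ∀ s ∈ rs, ∀ g c, ck g c (conjF r.F) s.F (hf r.i s.i) = true → e c = β r s) →
    fchk ck rs Ns = true → esum e (fterms Y rs Ns).flatten = gsum Y β rs := by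
  intro rs
  induction rs with
  | nil => intro Ns _ _; simp [fterms_nil, esum, gsum]
  | cons r rs ih =>
    intro Ns hck h
    rw [fchk_cons, Bool.and_eq_true] at h
    rw [fterms_cons, List.flatten_cons, esum_append,
      ih _ (fun r' hr' s hs => hck r' (by simp [hr']) s (by simp [hs])) h.2]
    have h1 := h.1
    rw [ckrow_cons, Bool.and_eq_true] at h1
    have h2 : esum e (frow r rs (rowcomb r.col (Tof Y (r :: rs))) (nthL 0 Ns 0)) =
        2 * evz (β r) (r :: rs) (rowcomb r.col (Tof Y (r :: rs))) -
        bil Y (U r.col) (U r.col) * β r r := by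
      have h3 := evz_rowcomb Y (fun s => if s.i = s.i then (0 : ℝ) else 0) rs r.col
      -- head coefficient
      have h4 : ∀ (V : List ℤ) (T : List (List ℤ)), ∀ L : List ℤ,
          L = rowcomb r.col (zipcons V T) → True := fun _ _ _ _ => trivial
      have key : ∀ L : List ℤ, esum e (frow r rs L (nthL 0 Ns 0)) =
          2 * evz (β r) (r :: rs) L - (nthL 0 L 0 : ℤ) * β r r := by
        intro L
        cases L with
        | nil => simp [frow_nil, esum, evz, nthL_nil]
        | cons x L =>
          rw [frow_cons, esum_cons, esum_trow e (β r) ck (conjF r.F) r.i rs L _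
            (fun s hs => hck r (by simp) s (by simp [hs])) h1.2,
            hck r (by simp) r (by simp) _ _ h1.1, nthL_cons_zero]
          simp only [evz]
          ring
      rw [key]
      have lin0 : IsLin (fun xs => ((nthL 0 xs 0 : ℤ) : ℝ)) := by
        refine ⟨by simp [nthL_nil], ?_⟩
        intro c xs ys
        cases xs <;> cases ys <;>
          simp [addS_nil_nil, addS_nil_cons, addS_cons_nil, addS_cons_cons, nthL_nil,
            nthL_cons_zero]
      have h5 : ((nthL 0 (rowcomb r.col (Tof Y (r :: rs))) 0 : ℤ) : ℝ) =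
          bil Y (U r.col) (U r.col) := by
        rw [rowcomb_lin lin0, Tof_cons]
        have : ∀ (V : List ℤ) (T : List (List ℤ)) (f : ℕ → ℝ),
            bl (fun xs => ((nthL 0 xs 0 : ℤ) : ℝ)) (zipcons V T) f = evl V f := by
          intro V
          induction V with
          | nil =>
            intro T
            induction T with
            | nil => intro f; simp [zipcons_nil_nil, bl, evl_nil]
            | cons t ts ih2 =>
              intro f
              rw [zipcons_nil_cons, bl_cons, ih2, evl_nil]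
              simp [nthL_cons_zero, evl_nil]
          | cons v vs ih2 =>
            intro T f
            cases T with
            | nil =>
              rw [zipcons_cons_nil, bl_cons, ih2, evl_cons]
              simp [nthL_cons_zero]
              ring
            | cons t ts =>
              rw [zipcons_cons_cons, bl_cons, ih2, evl_cons]
              simp [nthL_cons_zero]
              ring
        rw [this, rowcomb_lin (isLin_evl _)]
        rfl
      rw [h5]
    rw [h2, evz_rowcomb]
    simp only [gsum, List.map_cons, List.sum_cons]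
    ring

section gram

variable {E : Type} [AddCommGroup E] [Module ℝ E] (B : LinearMap.BilinForm ℝ E)

/-- the vectors of the face basis -/
noncomputable def Zv (ρ : Row → E) (rs : List Row) (k : ℕ) : E :=
  (rs.map (fun r => U r.col k • ρ r)).sum

lemma Zv_cons (ρ : Row → E) (r : Row) (rs : List Row) (k : ℕ) :
    Zv ρ (r :: rs) k = U r.col k • ρ r + Zv ρ rs k := by simp [Zv]

lemma evl_Zv (ρ : Row → E) (xs : List ℤ) (rs : List Row) :
    evl xs (Zv ρ rs) = (rs.map (fun r => evl xs (U r.col) • ρ r)).sum := by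
  induction rs with
  | nil =>
    have : Zv ρ [] = fun _ => 0 := by funext k; simp [Zv]
    rw [this, evl_zero]; simp
  | cons r rs ih =>
    have : Zv ρ (r :: rs) = fun k => U r.col k • ρ r + Zv ρ rs k := by
      funext k; exact Zv_cons ρ r rs k
    rw [this, evl_add, ih, evl_smul_right]
    simp

/-- full double sum -/
def dsum (Y : List (List ℤ)) (β : Row → Row → ℝ) (rs ss : List Row) : ℝ :=
  (rs.map (fun r => (ss.map (fun s => bil Y (U r.col) (U s.col) * β r s)).sum)).sum

lemma evB_smul_right (v : E) (w : ℕ → E) : ∀ (Y : List (List ℤ)) (f : ℕ → ℝ),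
    evB B Y (fun k => f k • v) w = bl (fun xs => B v (evl xs w)) Y f := by
  intro Y
  induction Y with
  | nil => intro f; rfl
  | cons y Y ih =>
    intro f
    rw [evB_cons, ih (fun k => f (k + 1)), bl_cons]
    simp

lemma evB_add_left : ∀ (Y : List (List ℤ)) (z z' w : ℕ → E),
    evB B Y (fun k => z k + z' k) w = evB B Y z w + evB B Y z' w := by
  intro Y
  induction Y with
  | nil => intro z z' w; simp [evB_nil]
  | cons y Y ih =>
    intro z z' w
    rw [evB_cons, evB_cons, evB_cons, ih (fun k => z (k + 1)) (fun k => z' (k + 1))]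
    simp
    ring

lemma evB_zero_left (w : ℕ → E) : ∀ (Y : List (List ℤ)), evB B Y (fun _ => 0) w = 0 := by
  intro Y
  induction Y with
  | nil => rfl
  | cons y Y ih => rw [evB_cons, ih]; simp

lemma bl_add_fun (φ ψ : List ℤ → ℝ) : ∀ (Y : List (List ℤ)) (f : ℕ → ℝ),
    bl (fun xs => φ xs + ψ xs) Y f = bl φ Y f + bl ψ Y f := by
  intro Y
  induction Y with
  | nil => intro f; simp [bl]
  | cons y Y ih => intro f; rw [bl_cons, bl_cons, bl_cons, ih]; ring

lemma bl_mul_fun (φ : List ℤ → ℝ) (c : ℝ) : ∀ (Y : List (List ℤ)) (f : ℕ → ℝ),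
    bl (fun xs => φ xs * c) Y f = bl φ Y f * c := by
  intro Y
  induction Y with
  | nil => intro f; simp [bl]
  | cons y Y ih => intro f; rw [bl_cons, bl_cons, ih]; ring

lemma bl_zero_fun : ∀ (Y : List (List ℤ)) (f : ℕ → ℝ), bl (fun _ => 0) Y f = 0 := by
  intro Y
  induction Y with
  | nil => intro f; rfl
  | cons y Y ih => intro f; rw [bl_cons, ih]; ring

lemma bl_sum (β : Row → ℝ) (Y : List (List ℤ)) (f : ℕ → ℝ) : ∀ (ss : List Row),
    bl (fun xs => (ss.map (fun s => evl xs (U s.col) * β s)).sum) Y f =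
      (ss.map (fun s => bil Y f (U s.col) * β s)).sum := by
  intro ss
  induction ss with
  | nil => simp [bl_zero_fun]
  | cons s ss ih =>
    simp only [List.map_cons, List.sum_cons]
    rw [bl_add_fun, bl_mul_fun, ih]
    rfl

lemma evB_Zv (ρ : Row → E) (Y : List (List ℤ)) (ss : List Row) : ∀ (rs : List Row),
    evB B Y (Zv ρ rs) (Zv ρ ss) = dsum Y (fun r s => B (ρ r) (ρ s)) rs ss := by
  intro rs
  induction rs with
  | nil =>
    have : Zv ρ [] = fun _ => 0 := by funext k; simp [Zv]
    rw [this, evB_zero_left]; simp [dsum]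
  | cons r rs ih =>
    have h1 : Zv ρ (r :: rs) = fun k => U r.col k • ρ r + Zv ρ rs k := by
      funext k; exact Zv_cons ρ r rs k
    rw [h1, evB_add_left, evB_smul_right, ih]
    have h2 : (fun xs => B (ρ r) (evl xs (Zv ρ ss))) =
        fun xs => (ss.map (fun s => evl xs (U s.col) * B (ρ r) (ρ s))).sum := by
      funext xs
      rw [evl_Zv, map_list_sum, List.map_map]
      congr 1
      apply List.map_congr_left
      intro s _
      simp
    rw [h2, bl_sum]
    simp [dsum]

lemma dsum_self (Y : List (List ℤ)) (hY : ∀ f g, bil Y f g = bil Y g f) (β : Row → Row → ℝ)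
    (hβ : ∀ r s, β r s = β s r) : ∀ rs : List Row, dsum Y β rs rs = gsum Y β rs := by
  intro rs
  induction rs with
  | nil => simp [dsum, gsum]
  | cons r rs ih =>
    have h1 : dsum Y β (r :: rs) (r :: rs) = bil Y (U r.col) (U r.col) * β r r +
        (rs.map (fun s => bil Y (U r.col) (U s.col) * β r s)).sum +
        (rs.map (fun s => bil Y (U s.col) (U r.col) * β s r)).sum + dsum Y β rs rs := by
      simp only [dsum, List.map_cons, List.sum_cons, List.sum_map_add]
      ring
    rw [h1, ih, gsum]
    have h2 : (rs.map (fun s => bil Y (U r.col) (U s.col) * β r s)).sum =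
        (rs.map (fun s => bil Y (U s.col) (U r.col) * β r s)).sum := by
      congr 1
      apply List.map_congr_left
      intro s _
      rw [hY]
    have h3 : (rs.map (fun s => bil Y (U s.col) (U r.col) * β s r)).sum =
        (rs.map (fun s => bil Y (U s.col) (U r.col) * β r s)).sum := by
      congr 1
      apply List.map_congr_left
      intro s _
      rw [hβ s r]
    rw [h2, h3]
    ring

end gram

/-! ### Symmetry -/

lemma evB_outer_all {E : Type} [AddCommGroup E] [Module ℝ E] (B : LinearMap.BilinForm ℝ E)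
    (Cs Y : List (List ℤ)) (z w : ℕ → E) : evB B (outerAll Cs Y) z w =
    evB B Y z w - (Cs.map (fun x => B (evl x z) (evl x w))).sum := by
  induction Cs with
  | nil => simp [outerAll_nil]
  | cons x Cs ih =>
    rw [outerAll_cons, evB_outer, ih]
    simp only [List.map_cons, List.sum_cons]
    ring

lemma bil_eq_evB (g : ℕ → ℝ) : ∀ (Y : List (List ℤ)) (f : ℕ → ℝ),
    bil Y f g = evB (LinearMap.mul ℝ ℝ) Y f g := by
  intro Y
  induction Y with
  | nil => intro f; rfl
  | cons y Y ih =>
    intro f
    have : bil (y :: Y) f g = f 0 * evl y g + bil Y (fun k => f (k + 1)) g := rfl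
    rw [this, ih, evB_cons]
    simp

theorem bil_symm {K s : ℕ} {Cs Y : List (List ℤ)} (h : psdchk K s Cs Y = true)
    (f g : ℕ → ℝ) : bil Y f g = bil Y g f := by
  unfold psdchk domchk at h
  set D := outerAll Cs (scaleM (Int.ofNat (Nat.succ s)) Y) with hD
  rw [Bool.and_eq_true, Bool.and_eq_true, Nat.ble_eq, lenL_eq, allL_iff, allN_iff] at h
  obtain ⟨h1, h2, h3⟩ := h
  have hlen : ∀ l, (nthL [] D l).length ≤ K := by
    have : ∀ (D : List (List ℤ)), (∀ x ∈ D, x.length ≤ K) → ∀ l, (nthL [] D l).length ≤ K := by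
      intro D
      induction D with
      | nil => intro _ l; simp [nthL_nil]
      | cons d D ih =>
        intro hx l
        cases l with
        | zero => exact hx d (by simp)
        | succ l => exact ih (fun x hx' => hx x (by simp [hx'])) l
    apply this
    intro x hx
    have := h2 x hx
    rwa [Nat.ble_eq, lenL_eq] at this
  have hform : ∀ f g : ℕ → ℝ, evB (LinearMap.mul ℝ ℝ) D f g = ∑ l ∈ Finset.range K,
      ∑ k ∈ Finset.range K, ((nthL 0 (nthL [] D l) k : ℤ) : ℝ) * (f l * g k) := by
    intro f g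
    rw [evB_eq_sum _ K D f g h1]
    apply Finset.sum_congr rfl
    intro l _
    rw [evl_eq_sum K _ g (hlen l), map_sum]
    apply Finset.sum_congr rfl
    intro k _
    simp
    ring
  have hDs : evB (LinearMap.mul ℝ ℝ) D f g = evB (LinearMap.mul ℝ ℝ) D g f := by
    rw [hform, hform, Finset.sum_comm]
    apply Finset.sum_congr rfl
    intro k hk
    apply Finset.sum_congr rfl
    intro l hl
    have := h3 l (Finset.mem_range.1 hl)
    rw [Bool.and_eq_true, allN_iff] at this
    have h4 := this.2 k (Finset.mem_range.1 hk)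
    rw [decide_eq_true_eq] at h4
    rw [h4]
    ring
  rw [hD, evB_outer_all, evB_outer_all, evB_scaleM, evB_scaleM, ← bil_eq_evB, ← bil_eq_evB] at hDs
  have h5 : (Cs.map (fun x => (LinearMap.mul ℝ ℝ) (evl x f) (evl x g))).sum =
      (Cs.map (fun x => (LinearMap.mul ℝ ℝ) (evl x g) (evl x f))).sum := by
    congr 1
    apply List.map_congr_left
    intro x _
    simp only [LinearMap.mul_apply']
    ring
  have h6 : ((Int.ofNat (Nat.succ s) : ℤ) : ℝ) ≠ 0 := by
    simp
    positivity
  apply mul_left_cancel₀ h6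
  linarith

/-- **Nonnegativity of the Gram sum of a family.** -/
theorem gsum_nonneg {E : Type} [AddCommGroup E] [Module ℝ E] (B : LinearMap.BilinForm ℝ E)
    (hpos : ∀ x, 0 ≤ B x x) (hsymm : ∀ x y, B x y = B y x) {K s : ℕ} {Cs Y : List (List ℤ)}
    (h : psdchk K s Cs Y = true) (ρ : Row → E) (rs : List Row) :
    0 ≤ gsum Y (fun r t => B (ρ r) (ρ t)) rs := by
  rw [← dsum_self Y (bil_symm h) (fun r t => B (ρ r) (ρ t)) (fun r t => hsymm _ _), ← evB_Zv]
  exact evB_nonneg B hpos hsymm h _

end Pool.Agent.Lib.MP_61cf81_al
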