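import Mathlib
import Pool.Agent.Lib.MP_61cf81_al.Rows

/-!
# Environments, the action of the symmetric group, averages of monomials
-/

set_option autoImplicit false

open scoped ComplexConjugate

namespace Pool.Agent.Lib.MP_61cf81_al

abbrev S4 := Equiv.Perm (Fin 4)

/-- values of the variables -/
noncomputable def env (H : Fin 4 → Fin 4 → ℂ) (v : Fin 4 → ℂ) (f : ℕ) : ℂ :=
  if f < 16 then H (Fin.ofNat 4 (f / 4)) (Fin.ofNat 4 (f % 4))
  else if f < 20 then v (Fin.ofNat 4 (f - 16)) else conj (v (Fin.ofNat 4 (f - 20)))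

/-- action on codes -/
def cod (ρ : S4 → S4) (γ : S4) (f : ℕ) : ℕ :=
  if f < 16 then 4 * (γ (Fin.ofNat 4 (f / 4))).val + (γ (Fin.ofNat 4 (f % 4))).val
  else if f < 20 then 16 + (ρ γ (Fin.ofNat 4 (f - 16))).val
  else 20 + (ρ γ (Fin.ofNat 4 (f - 20))).val

lemma ofNat_val (x : Fin 4) : Fin.ofNat 4 x.val = x := by
  ext; simp

lemma env_cod (ρ : S4 → S4) (H : Fin 4 → Fin 4 → ℂ) (v : Fin 4 → ℂ) (γ : S4) (f : ℕ) :
    env H v (cod ρ γ f) = env (fun i j => H (γ i) (γ j)) (fun a => v (ρ γ a)) f := by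
  unfold env cod
  by_cases h1 : f < 16
  · have ha := (γ (Fin.ofNat 4 (f / 4))).isLt
    have hb := (γ (Fin.ofNat 4 (f % 4))).isLt
    rw [if_pos h1, if_pos h1, if_pos (by omega)]
    have e1 : (4 * (γ (Fin.ofNat 4 (f / 4))).val + (γ (Fin.ofNat 4 (f % 4))).val) / 4 =
      (γ (Fin.ofNat 4 (f / 4))).val := by omega
    have e2 : (4 * (γ (Fin.ofNat 4 (f / 4))).val + (γ (Fin.ofNat 4 (f % 4))).val) % 4 =
      (γ (Fin.ofNat 4 (f % 4))).val := by omega
    rw [e1, e2, ofNat_val, ofNat_val]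
  · rw [if_neg h1, if_neg h1]
    by_cases h2 : f < 20
    · have ha := (ρ γ (Fin.ofNat 4 (f - 16))).isLt
      rw [if_pos h2, if_pos h2, if_neg (by omega), if_pos (by omega), Nat.add_sub_cancel_left,
        ofNat_val]
    · have ha := (ρ γ (Fin.ofNat 4 (f - 20))).isLt
      rw [if_neg h2, if_neg h2, if_neg (by omega), if_neg (by omega), Nat.add_sub_cancel_left,
        ofNat_val]

lemma cc_eq (f : ℕ) : cc f = if f < 16 then 4 * (f % 4) + f / 4 else
    if f < 20 then f + 4 else 16 + (f - 20) % 4 := by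
  unfold cc
  by_cases h1 : f < 16
  · have : Nat.blt f 16 = true := by rw [Nat.blt_eq]; exact h1
    rw [this, if_pos h1]; rfl
  · have : Nat.blt f 16 = false := by
      rw [Bool.eq_false_iff, Ne, Nat.blt_eq]; exact h1
    rw [this, if_neg h1]
    by_cases h2 : f < 20
    · have : Nat.blt f 20 = true := by rw [Nat.blt_eq]; exact h2
      rw [this, if_pos h2]; rfl
    · have : Nat.blt f 20 = false := by
        rw [Bool.eq_false_iff, Ne, Nat.blt_eq]; exact h2
      rw [this, if_neg h2]; rfl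

lemma cc_lt {f : ℕ} (h : f < 24) : cc f < 24 := by
  rw [cc_eq]
  split_ifs <;> omega

lemma env_cc {H : Fin 4 → Fin 4 → ℂ} (hH : ∀ i j, H j i = conj (H i j)) (v : Fin 4 → ℂ) (f : ℕ) :
    env H v (cc f) = conj (env H v f) := by
  rw [cc_eq]
  unfold env
  by_cases h1 : f < 16
  · have e0 : 4 * (f % 4) + f / 4 < 16 := by omega
    have e1 : (4 * (f % 4) + f / 4) / 4 = f % 4 := by omega
    have e2 : (4 * (f % 4) + f / 4) % 4 = f / 4 := by omega
    rw [if_pos h1, if_pos e0, if_pos h1, e1, e2, hH]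
  · rw [if_neg h1, if_neg h1]
    by_cases h2 : f < 20
    · have e1 : ¬ f + 4 < 16 := by omega
      have e2 : ¬ f + 4 < 20 := by omega
      have e3 : f + 4 - 20 = f - 16 := by omega
      rw [if_pos h2, if_neg e1, if_neg e2, if_pos h2, e3]
    · have e1 : ¬ 16 + (f - 20) % 4 < 16 := by omega
      have e2 : 16 + (f - 20) % 4 < 20 := by omega
      rw [if_neg h2, if_neg e1, if_pos e2, if_neg h2, Nat.add_sub_cancel_left]
      have : Fin.ofNat 4 ((f - 20) % 4) = Fin.ofNat 4 (f - 20) := by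
        ext; simp
      rw [this]
      simp

/-- average of a monomial -/
noncomputable def EF (ρ : S4 → S4) (H : Fin 4 → Fin 4 → ℂ) (v : Fin 4 → ℂ) (F : List ℕ) : ℝ :=
  ∑ γ : S4, ((F.map (env (fun i j => H (γ i) (γ j)) (fun a => v (ρ γ a)))).prod).re

lemma EF_perm (ρ : S4 → S4) (H : Fin 4 → Fin 4 → ℂ) (v : Fin 4 → ℂ) {F G : List ℕ}
    (h : F.Perm G) : EF ρ H v F = EF ρ H v G := by
  unfold EF
  apply Finset.sum_congr rfl
  intro γ _
  rw [(h.map _).prod_eq]

lemma EF_cod {ρ : S4 → S4} (hρ : ∀ a b, ρ (a * b) = ρ a * ρ b) (H : Fin 4 → Fin 4 → ℂ)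
    (v : Fin 4 → ℂ) (g : S4) (F : List ℕ) : EF ρ H v (F.map (cod ρ g)) = EF ρ H v F := by
  unfold EF
  rw [← Equiv.sum_comp (Equiv.mulRight g : S4 ≃ S4) (fun γ : S4 => ((F.map (env
    (fun i j => H (γ i) (γ j)) (fun a => v (ρ γ a)))).prod).re)]
  apply Finset.sum_congr rfl
  intro γ _
  rw [List.map_map]
  congr 3
  funext f
  simp only [Function.comp, env_cod, Equiv.coe_mulRight, hρ, Equiv.Perm.coe_mul]

lemma EF_cc {ρ : S4 → S4} {H : Fin 4 → Fin 4 → ℂ} (hH : ∀ i j, H j i = conj (H i j))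
    (v : Fin 4 → ℂ) (F : List ℕ) : EF ρ H v (F.map cc) = EF ρ H v F := by
  unfold EF
  apply Finset.sum_congr rfl
  intro γ _
  rw [List.map_map]
  have : (env (fun i j => H (γ i) (γ j)) (fun a => v (ρ γ a))) ∘ cc =
      (starRingEnd ℂ) ∘ (env (fun i j => H (γ i) (γ j)) (fun a => v (ρ γ a))) := by
    funext f
    simp only [Function.comp]
    exact env_cc (fun i j => hH _ _) _ f
  rw [this, ← List.map_map]
  have h2 : ∀ L : List ℂ, (L.map (starRingEnd ℂ)).prod = (starRingEnd ℂ) L.prod := by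
    intro L
    rw [map_list_prod]
  rw [h2]
  simp

/-- value of a class given by its code -/
noncomputable def ecode (ρ : S4 → S4) (H : Fin 4 → Fin 4 → ℂ) (v : Fin 4 → ℂ) (n : ℕ) : ℝ :=
  open Classical in
  if h : ∃ F : List ℕ, F.length ≤ 15 ∧ enc F = n then EF ρ H v (Classical.choose h) else 0

lemma ecode_enc (ρ : S4 → S4) (H : Fin 4 → Fin 4 → ℂ) (v : Fin 4 → ℂ) {F : List ℕ}
    (hF : F.length ≤ 15) : ecode ρ H v (enc F) = EF ρ H v F := by
  unfold ecode
  have h : ∃ G : List ℕ, G.length ≤ 15 ∧ enc G = enc F := ⟨F, hF, rfl⟩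
  rw [dif_pos h]
  exact EF_perm ρ H v (enc_perm (Classical.choose_spec h).1 hF (Classical.choose_spec h).2)

/-! ### The tables -/

/-- list of all permutations -/
def pl : List S4 :=
  ([0, 1, 2, 3] : List (Fin 4)).flatMap fun a => ([1, 2, 3] : List (Fin 4)).flatMap fun b =>
    ([2, 3] : List (Fin 4)).map fun c => Equiv.swap 0 a * Equiv.swap 1 b * Equiv.swap 2 c

lemma pl_nodup : pl.Nodup := by decide +kernel

lemma pl_univ : pl.toFinset = Finset.univ := by
  apply Finset.eq_univ_of_card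
  rw [List.toFinset_card_of_nodup pl_nodup]
  decide +kernel

lemma sum_pl {M : Type} [AddCommMonoid M] (f : S4 → M) : ∑ γ : S4, f γ = (pl.map f).sum := by
  rw [← pl_univ, List.sum_toFinset f pl_nodup]

/-- the permutation of the codes with index `g` -/
def codg (ρ : S4 → S4) (g f : ℕ) : ℕ :=
  if g < 24 then cod ρ (pl.getD g 1) f else cod ρ (pl.getD (g - 24) 1) (cc f)

/-- sum of the images of the factors -/
noncomputable def act (W : ℕ) (F : List ℕ) : ℕ :=
  List.rec (motive := fun _ => ℕ) 0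
    (fun f _ ih => Nat.add (Nat.mod (Nat.shiftRight W (Nat.mul 128 f))
      340282366920938463463374607431768211456) ih) F

lemma act_cons (W f : ℕ) (F : List ℕ) : act W (f :: F) =
    (W >>> (128 * f)) % 340282366920938463463374607431768211456 + act W F := rfl

noncomputable def Wg (WW g : ℕ) : ℕ := Nat.mod (Nat.shiftRight WW (Nat.mul 3072 g)) (Nat.pow 2 3072)

noncomputable def rep (RT c : ℕ) : ℕ :=
  Nat.mod (Nat.shiftRight RT (Nat.mul 128 c)) 340282366920938463463374607431768211456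

/-- check of the table of the group -/
noncomputable def wchk (ρ : S4 → S4) (WW : ℕ) : Bool :=
  allN (fun g => allN (fun f => Nat.beq (Nat.mod (Nat.shiftRight (Wg WW g) (Nat.mul 128 f))
    340282366920938463463374607431768211456) (Nat.pow 32 (codg ρ g f))) 24) 48

/-- the class check -/
noncomputable def ck (WW RT : ℕ) (g c : ℕ) (Fa Fb Fh : List ℕ) : Bool :=
  and (Nat.ble (Nat.succ g) 48) (Nat.beq (Nat.add (act (Wg WW g) Fa)
    (Nat.add (act (Wg WW g) Fb) (act (Wg WW g) Fh))) (rep RT c))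

lemma act_eq {W : ℕ} {φ : ℕ → ℕ} (h : ∀ f < 24,
    (W >>> (128 * f)) % 340282366920938463463374607431768211456 = 32 ^ (φ f)) :
    ∀ F : List ℕ, (∀ f ∈ F, f < 24) → act W F = enc (F.map φ) := by
  intro F
  induction F with
  | nil => intro _; rfl
  | cons f F ih =>
    intro hF
    rw [act_cons, ih (fun x hx => hF x (by simp [hx])), h f (hF f (by simp))]
    simp [enc]

lemma enc_append (F G : List ℕ) : enc (F ++ G) = enc F + enc G := by simp [enc]

/-- Soundness of the class check. -/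
lemma ck_sound {ρ : S4 → S4} (hρ : ∀ a b, ρ (a * b) = ρ a * ρ b) {H : Fin 4 → Fin 4 → ℂ}
    (hH : ∀ i j, H j i = conj (H i j)) (v : Fin 4 → ℂ) {WW RT : ℕ} (hW : wchk ρ WW = true)
    {g c : ℕ} {Fa Fb Fh : List ℕ} (ha : ∀ f ∈ Fa, f < 24) (hb : ∀ f ∈ Fb, f < 24)
    (hh : ∀ f ∈ Fh, f < 24) (hl : Fa.length + Fb.length + Fh.length ≤ 15)
    (h : ck WW RT g c Fa Fb Fh = true) :
    ecode ρ H v (rep RT c) = EF ρ H v (Fa ++ Fb ++ Fh) := by
  unfold ck at h
  rw [Bool.and_eq_true, Nat.ble_eq] at h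
  obtain ⟨hg, h⟩ := h
  have hg' : g < 48 := hg
  have h' : act (Wg WW g) Fa + (act (Wg WW g) Fb + act (Wg WW g) Fh) = rep RT c :=
    Nat.eq_of_beq_eq_true h
  unfold wchk at hW
  rw [allN_iff] at hW
  have hW1 := hW g hg'
  rw [allN_iff] at hW1
  have hW2 : ∀ f < 24, ((Wg WW g) >>> (128 * f)) % 340282366920938463463374607431768211456 =
      32 ^ (codg ρ g f) := fun f hf => Nat.eq_of_beq_eq_true (hW1 f hf)
  rw [act_eq hW2 Fa ha, act_eq hW2 Fb hb, act_eq hW2 Fh hh, ← enc_append, ← enc_append,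
    ← List.map_append, ← List.map_append] at h'
  rw [← h', ecode_enc ρ H v (by simp; omega), ← List.append_assoc]
  have h1 : (Fa ++ Fb ++ Fh).map (codg ρ g) = if g < 24 then
      (Fa ++ Fb ++ Fh).map (cod ρ (pl.getD g 1)) else
      ((Fa ++ Fb ++ Fh).map cc).map (cod ρ (pl.getD (g - 24) 1)) := by
    split_ifs with h24
    · apply List.map_congr_left
      intro f _
      unfold codg
      rw [if_pos h24]
    · rw [List.map_map]
      apply List.map_congr_left
      intro f _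
      unfold codg
      rw [if_neg h24]
      rfl
  rw [h1]
  split_ifs
  · exact EF_cod hρ H v _ _
  · rw [EF_cod hρ, EF_cc hH]

end Pool.Agent.Lib.MP_61cf81_al
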