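import Mathlib
import Pool.Agent.Lib.MP_61cf81_al.Env

/-!
# The forms attached to representations, and certificates for them
-/

set_option autoImplicit false

open scoped ComplexConjugate

namespace Pool.Agent.Lib.MP_61cf81_al

/-- the form `∑ g, f(g) (‖v‖² - ε(g) ⟨ρ(g) v, v⟩)` -/
noncomputable def Gf (ρ : S4 → S4) (ε : S4 → ℤ) (H : Fin 4 → Fin 4 → ℂ) (v : Fin 4 → ℂ) : ℂ :=
  ∑ g : S4, (∏ j, H (g j) j) *
    (∑ a, conj (v a) * v a - (ε g : ℂ) * ∑ a, conj (v (ρ g a)) * v a)

lemma Gf_conj {ρ : S4 → S4} (hρ : ∀ a b, ρ (a * b) = ρ a * ρ b) {ε : S4 → ℤ}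
    (hε : ∀ a g, ε (a⁻¹ * g * a) = ε g) (H : Fin 4 → Fin 4 → ℂ) (v : Fin 4 → ℂ) (γ : S4) :
    Gf ρ ε (fun i j => H (γ i) (γ j)) (fun a => v (ρ γ a)) = Gf ρ ε H v := by
  unfold Gf
  have e : S4 ≃ S4 := (MulAut.conj γ⁻¹).toEquiv
  rw [← Equiv.sum_comp ((MulAut.conj γ⁻¹).toEquiv : S4 ≃ S4) (fun g : S4 =>
    (∏ j, H (γ (g j)) (γ j)) * (∑ a, conj (v (ρ γ a)) * v (ρ γ a) - (ε g : ℂ) *
      ∑ a, conj (v (ρ γ (ρ g a))) * v (ρ γ a)))]
  apply Finset.sum_congr rfl
  intro g _
  have h0 : (MulAut.conj γ⁻¹).toEquiv g = γ⁻¹ * g * γ := by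
    simp
  rw [h0, hε]
  congr 1
  · rw [← Equiv.prod_comp γ (fun j => H (g j) j)]
    apply Finset.prod_congr rfl
    intro j _
    simp [Equiv.Perm.mul_apply]
  · congr 1
    · exact Equiv.sum_comp (ρ γ) (fun a => conj (v a) * v a)
    · congr 1
      rw [← Equiv.sum_comp (ρ γ) (fun a => conj (v (ρ g a)) * v a)]
      apply Finset.sum_congr rfl
      intro a _
      have : ρ γ (ρ (γ⁻¹ * g * γ) a) = ρ g (ρ γ a) := by
        rw [← Equiv.Perm.mul_apply, ← hρ, ← Equiv.Perm.mul_apply, ← hρ]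
        congr 2
        group
      rw [this]

/-- factors of the monomial of a permutation -/
def fs (g : S4) : List ℕ :=
  ([0, 1, 2, 3] : List (Fin 4)).flatMap fun j => if g j = j then [] else [4 * (g j).val + j.val]

lemma env_h (H : Fin 4 → Fin 4 → ℂ) (v : Fin 4 → ℂ) (i j : Fin 4) :
    env H v (4 * i.val + j.val) = H i j := by
  unfold env
  have := i.isLt
  have := j.isLt
  have e1 : (4 * i.val + j.val) / 4 = i.val := by omega
  have e2 : (4 * i.val + j.val) % 4 = j.val := by omega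
  rw [if_pos (by omega), e1, e2, ofNat_val, ofNat_val]

lemma env_v (H : Fin 4 → Fin 4 → ℂ) (v : Fin 4 → ℂ) (a : Fin 4) :
    env H v (16 + a.val) = v a := by
  unfold env
  have := a.isLt
  rw [if_neg (by omega), if_pos (by omega), Nat.add_sub_cancel_left, ofNat_val]

lemma env_vb (H : Fin 4 → Fin 4 → ℂ) (v : Fin 4 → ℂ) (a : Fin 4) :
    env H v (20 + a.val) = conj (v a) := by
  unfold env
  have := a.isLt
  rw [if_neg (by omega), if_neg (by omega), Nat.add_sub_cancel_left, ofNat_val]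

lemma prod_fs {H : Fin 4 → Fin 4 → ℂ} (hd : ∀ i, H i i = 1) (v : Fin 4 → ℂ) (g : S4) :
    ((fs g).map (env H v)).prod = ∏ j, H (g j) j := by
  have h1 : ∀ L : List (Fin 4), ((L.flatMap (fun j => if g j = j then [] else
      [4 * (g j).val + j.val])).map (env H v)).prod = (L.map (fun j => H (g j) j)).prod := by
    intro L
    induction L with
    | nil => rfl
    | cons j L ih =>
      rw [List.flatMap_cons, List.map_append, List.prod_append, ih, List.map_cons, List.prod_cons]
      congr 1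
      by_cases h : g j = j
      · rw [if_pos h, h, hd]; rfl
      · rw [if_neg h]
        simp only [List.map_cons, List.map_nil, List.prod_cons, List.prod_nil, mul_one]
        exact env_h H v _ _
  unfold fs
  rw [h1, Fin.prod_univ_four]
  simp [mul_assoc]

/-- the list of terms of `-D * G` -/
def gl (ρ : S4 → S4) (ε : S4 → ℤ) (D : ℤ) : List (List (ℤ × List ℕ)) :=
  pl.map fun g => ([0, 1, 2, 3] : List (Fin 4)).flatMap fun a =>
    [(-D, fs g ++ [20 + a.val, 16 + a.val]), (D * ε g, fs g ++ [20 + (ρ g a).val, 16 + a.val])]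

/-- sign, as an integer -/
def sg (g : S4) : ℤ :=
  (if g 0 < g 1 then 1 else -1) * (if g 0 < g 2 then 1 else -1) * (if g 0 < g 3 then 1 else -1) *
  (if g 1 < g 2 then 1 else -1) * (if g 1 < g 3 then 1 else -1) * (if g 2 < g 3 then 1 else -1)

lemma sg_eq : ∀ g : S4, sg g = (Equiv.Perm.sign g : ℤ) := by decide +kernel

/-- the list of terms of `q * det` -/
def dl (Q : List (ℤ × List ℕ)) : List (List (ℤ × List ℕ)) :=
  Q.map fun q => pl.map fun s => (sg s * q.1, q.2 ++ fs s)

/-- weighted sum of averages -/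
noncomputable def esF (ρ : S4 → S4) (H : Fin 4 → Fin 4 → ℂ) (v : Fin 4 → ℂ)
    (L : List (ℤ × List ℕ)) : ℝ := (L.map (fun p => (p.1 : ℝ) * EF ρ H v p.2)).sum

lemma esF_append (ρ : S4 → S4) (H : Fin 4 → Fin 4 → ℂ) (v : Fin 4 → ℂ)
    (L M : List (ℤ × List ℕ)) : esF ρ H v (L ++ M) = esF ρ H v L + esF ρ H v M := by simp [esF]

lemma esF_eq (ρ : S4 → S4) (H : Fin 4 → Fin 4 → ℂ) (v : Fin 4 → ℂ) (L : List (ℤ × List ℕ)) :
    esF ρ H v L = ∑ γ : S4, ((L.map (fun p => (p.1 : ℂ) *
      ((p.2.map (env (fun i j => H (γ i) (γ j)) (fun a => v (ρ γ a)))).prod))).sum).re := by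
  induction L with
  | nil => simp [esF]
  | cons p L ih =>
    have : esF ρ H v (p :: L) = (p.1 : ℝ) * EF ρ H v p.2 + esF ρ H v L := by simp [esF]
    rw [this, ih, EF, Finset.mul_sum, ← Finset.sum_add_distrib]
    apply Finset.sum_congr rfl
    intro γ _
    rw [List.map_cons, List.sum_cons, Complex.add_re]
    congr 1
    have : ((p.1 : ℤ) : ℂ) = ((p.1 : ℝ) : ℂ) := by push_cast; rfl
    rw [this, Complex.re_ofReal_mul]

lemma esF_flatten (ρ : S4 → S4) (H : Fin 4 → Fin 4 → ℂ) (v : Fin 4 → ℂ)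
    (LL : List (List (ℤ × List ℕ))) : esF ρ H v LL.flatten = (LL.map (esF ρ H v)).sum := by
  induction LL with
  | nil => simp [esF]
  | cons L LL ih => rw [List.flatten_cons, esF_append, ih]; simp

lemma esF_gl {ρ : S4 → S4} (hρ : ∀ a b, ρ (a * b) = ρ a * ρ b) {ε : S4 → ℤ}
    (hε : ∀ a g, ε (a⁻¹ * g * a) = ε g) {H : Fin 4 → Fin 4 → ℂ} (hd : ∀ i, H i i = 1)
    (v : Fin 4 → ℂ) (D : ℤ) :
    esF ρ H v (gl ρ ε D).flatten = -(D : ℝ) * (24 * (Gf ρ ε H v).re) := by
  rw [esF_eq]
  have key : ∀ γ : S4, (((gl ρ ε D).flatten.map (fun p => (p.1 : ℂ) *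
      ((p.2.map (env (fun i j => H (γ i) (γ j)) (fun a => v (ρ γ a)))).prod))).sum) =
      -(D : ℂ) * Gf ρ ε H v := by
    intro γ
    rw [← Gf_conj hρ hε H v γ]
    set H' : Fin 4 → Fin 4 → ℂ := fun i j => H (γ i) (γ j) with hH'
    set v' : Fin 4 → ℂ := fun a => v (ρ γ a) with hv'
    have hd' : ∀ i, H' i i = 1 := fun i => hd _
    unfold Gf
    rw [sum_pl, ← List.sum_map_mul_left, List.map_flatten, List.sum_flatten, gl, List.map_map,
      List.map_map]
    congr 1
    apply List.map_congr_left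
    intro g _
    have e1 : ∀ (x y : ℕ), ((fs g ++ [x, y]).map (env H' v')).prod =
        (∏ j, H' (g j) j) * (env H' v' x * env H' v' y) := by
      intro x y
      rw [List.map_append, List.prod_append, prod_fs hd']
      simp
    simp only [Function.comp, List.flatMap_cons, List.flatMap_nil, List.append_nil,
      List.cons_append, List.nil_append, List.map_cons, List.map_nil, List.sum_cons, List.sum_nil,
      e1, env_v, env_vb, Fin.sum_univ_four]
    push_cast
    ring
  simp only [key]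
  rw [Finset.sum_const, Finset.card_univ, Fintype.card_perm, Fintype.card_fin]
  have : (-(D : ℂ) * Gf ρ ε H v).re = -(D : ℝ) * (Gf ρ ε H v).re := by
    have : (-(D : ℂ)) = ((-(D : ℝ) : ℝ) : ℂ) := by push_cast; rfl
    rw [this, Complex.re_ofReal_mul]
  rw [this]
  simp [Nat.factorial]
  ring

lemma esF_dl (ρ : S4 → S4) {H : Fin 4 → Fin 4 → ℂ} (hd : ∀ i, H i i = 1)
    (hdet : (Matrix.of H).det = 0) (v : Fin 4 → ℂ) (Q : List (ℤ × List ℕ)) :
    esF ρ H v (dl Q).flatten = 0 := by
  rw [esF_flatten]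
  apply List.sum_eq_zero
  intro x hx
  rw [List.mem_map] at hx
  obtain ⟨L, hL, rfl⟩ := hx
  unfold dl at hL
  rw [List.mem_map] at hL
  obtain ⟨q, _, rfl⟩ := hL
  rw [esF_eq]
  apply Finset.sum_eq_zero
  intro γ _
  set H' : Fin 4 → Fin 4 → ℂ := fun i j => H (γ i) (γ j) with hH'
  set v' : Fin 4 → ℂ := fun a => v (ρ γ a) with hv'
  have hd' : ∀ i, H' i i = 1 := fun i => hd _
  have hdet' : ∑ s : S4, ((Equiv.Perm.sign s : ℤ) : ℂ) * ∏ i, H' (s i) i = 0 := by
    have h1 : (Matrix.of H').det = 0 := by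
      have : Matrix.of H' = (Matrix.of H).submatrix γ γ := rfl
      rw [this, Matrix.det_submatrix_equiv_self, hdet]
    rw [Matrix.det_apply] at h1
    rw [← h1]
    apply Finset.sum_congr rfl
    intro s _
    rw [Units.smul_def, zsmul_eq_mul]
    rfl
  have : ((pl.map fun s => (sg s * q.1, q.2 ++ fs s)).map (fun p => (p.1 : ℂ) *
      ((p.2.map (env H' v')).prod))).sum = (q.1 : ℂ) * (q.2.map (env H' v')).prod *
      ∑ s : S4, ((Equiv.Perm.sign s : ℤ) : ℂ) * ∏ i, H' (s i) i := by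
    rw [sum_pl, ← List.sum_map_mul_left, List.map_map]
    congr 1
    apply List.map_congr_left
    intro s _
    simp only [Function.comp, List.map_append, List.prod_append, prod_fs hd', sg_eq]
    push_cast
    ring
  rw [this, hdet']
  simp

/-! ### Extra terms -/

noncomputable def et (L : List (ℤ × List ℕ)) : ℕ → List (ℕ × ℤ) :=
  List.rec (motive := fun _ => ℕ → List (ℕ × ℤ)) (fun _ => [])
    (fun p _ ih N => (Nat.mod N 512, p.1) :: ih (Nat.div N 32768)) L

lemma et_cons (p : ℤ × List ℕ) (L : List (ℤ × List ℕ)) (N : ℕ) :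
    et (p :: L) N = (N % 512, p.1) :: et L (N / 32768) := rfl

noncomputable def facok (n : ℕ) (F : List ℕ) : Bool :=
  and (Nat.ble (lenL F) n) (allL (fun f => Nat.ble (Nat.succ f) 24) F)

lemma facok_iff (n : ℕ) (F : List ℕ) : facok n F = true ↔ F.length ≤ n ∧ ∀ f ∈ F, f < 24 := by
  unfold facok
  rw [Bool.and_eq_true, Nat.ble_eq, lenL_eq, allL_iff]
  simp only [Nat.ble_eq]
  rfl

noncomputable def etc (WW RT : ℕ) (L : List (ℤ × List ℕ)) : ℕ → Bool :=
  List.rec (motive := fun _ => ℕ → Bool) (fun _ => true)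
    (fun p _ ih N => and (facok 15 p.2) (and (ck WW RT (Nat.mod (Nat.div N 512) 64) (Nat.mod N 512)
      p.2 [] []) (ih (Nat.div N 32768)))) L

lemma etc_cons (WW RT : ℕ) (p : ℤ × List ℕ) (L : List (ℤ × List ℕ)) (N : ℕ) :
    etc WW RT (p :: L) N = (facok 15 p.2 && (ck WW RT (N / 512 % 64) (N % 512) p.2 [] [] &&
      etc WW RT L (N / 32768))) := rfl

noncomputable def ett (LL : List (List (ℤ × List ℕ))) : List ℕ → List (List (ℕ × ℤ)) :=
  List.rec (motive := fun _ => List ℕ → List (List (ℕ × ℤ))) (fun _ => [])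
    (fun L _ ih Ns => et L (nthL 0 Ns 0) ::
      ih (List.rec (motive := fun _ => List ℕ) [] (fun _ t _ => t) Ns)) LL

lemma ett_cons (L : List (ℤ × List ℕ)) (LL : List (List (ℤ × List ℕ))) (Ns : List ℕ) :
    ett (L :: LL) Ns = et L (nthL 0 Ns 0) :: ett LL Ns.tail := by cases Ns <;> rfl

noncomputable def ettc (WW RT : ℕ) (LL : List (List (ℤ × List ℕ))) : List ℕ → Bool :=
  List.rec (motive := fun _ => List ℕ → Bool) (fun _ => true)
    (fun L _ ih Ns => and (etc WW RT L (nthL 0 Ns 0))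
      (ih (List.rec (motive := fun _ => List ℕ) [] (fun _ t _ => t) Ns))) LL

lemma ettc_cons (WW RT : ℕ) (L : List (ℤ × List ℕ)) (LL : List (List (ℤ × List ℕ)))
    (Ns : List ℕ) : ettc WW RT (L :: LL) Ns = (etc WW RT L (nthL 0 Ns 0) &&
      ettc WW RT LL Ns.tail) := by cases Ns <;> rfl

section sound

variable {ρ : S4 → S4} (hρ : ∀ a b, ρ (a * b) = ρ a * ρ b) {H : Fin 4 → Fin 4 → ℂ}
    (hH : ∀ i j, H j i = conj (H i j)) (v : Fin 4 → ℂ) {WW RT : ℕ} (hW : wchk ρ WW = true)

include hρ hH hW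

lemma esum_et : ∀ (L : List (ℤ × List ℕ)) (N : ℕ), etc WW RT L N = true →
    esum (fun c => ecode ρ H v (rep RT c)) (et L N) = esF ρ H v L := by
  intro L
  induction L with
  | nil => intro N _; simp [et, esum, esF]
  | cons p L ih =>
    intro N h
    rw [etc_cons, Bool.and_eq_true, Bool.and_eq_true, facok_iff] at h
    obtain ⟨⟨h1, h2⟩, h3, h4⟩ := h
    rw [et_cons, esum_cons, ih _ h4,
      ck_sound hρ hH v hW h2 (by simp) (by simp) (by simpa using h1) h3]
    simp [esF]

lemma esum_ett : ∀ (LL : List (List (ℤ × List ℕ))) (Ns : List ℕ), ettc WW RT LL Ns = true →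
    esum (fun c => ecode ρ H v (rep RT c)) (ett LL Ns).flatten = esF ρ H v LL.flatten := by
  intro LL
  induction LL with
  | nil => intro Ns _; simp [ett, esum, esF]
  | cons L LL ih =>
    intro Ns h
    rw [ettc_cons, Bool.and_eq_true] at h
    rw [ett_cons, List.flatten_cons, esum_append, ih _ h.2, esum_et hρ hH v hW _ _ h.1,
      List.flatten_cons, esF_append]

end sound

/-! ### Families -/

/-- data of a family -/
structure Fam where
  K : ℕ
  s : ℕ
  Cs : List (List ℤ)
  Y : List (List ℤ)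
  rs : List Row
  Ns : List ℕ

noncomputable def rowok (rs : List Row) : Bool :=
  allL (fun r => and (Nat.ble (Nat.succ r.i) 4) (facok 7 r.F)) rs

noncomputable def famok (WW RT : ℕ) (m : Fam) : Bool :=
  and (rowok m.rs) (fchk (ck WW RT) m.rs m.Ns)

/-- the bilinear form -/
noncomputable def Bt (H : Fin 4 → Fin 4 → ℂ) : LinearMap.BilinForm ℝ (S4 → Fin 4 → ℂ) :=
  LinearMap.mk₂ ℝ (fun x y => ∑ γ : S4,
    (∑ i, ∑ j, conj (x γ i) * H (γ i) (γ j) * y γ j).re)
    (by
      intro x x' y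
      rw [← Finset.sum_add_distrib]
      apply Finset.sum_congr rfl
      intro γ _
      rw [← Complex.add_re, ← Finset.sum_add_distrib]
      congr 1
      apply Finset.sum_congr rfl
      intro i _
      rw [← Finset.sum_add_distrib]
      apply Finset.sum_congr rfl
      intro j _
      simp only [Pi.add_apply, map_add]
      ring)
    (by
      intro c x y
      rw [Finset.smul_sum]
      apply Finset.sum_congr rfl
      intro γ _
      rw [smul_eq_mul, ← Complex.re_ofReal_mul, Finset.mul_sum]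
      congr 1
      apply Finset.sum_congr rfl
      intro i _
      rw [Finset.mul_sum]
      apply Finset.sum_congr rfl
      intro j _
      simp only [Pi.smul_apply, Complex.real_smul, map_mul, Complex.conj_ofReal]
      ring)
    (by
      intro x y y'
      rw [← Finset.sum_add_distrib]
      apply Finset.sum_congr rfl
      intro γ _
      rw [← Complex.add_re, ← Finset.sum_add_distrib]
      congr 1
      apply Finset.sum_congr rfl
      intro i _
      rw [← Finset.sum_add_distrib]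
      apply Finset.sum_congr rfl
      intro j _
      simp only [Pi.add_apply]
      ring)
    (by
      intro c x y
      rw [Finset.smul_sum]
      apply Finset.sum_congr rfl
      intro γ _
      rw [smul_eq_mul, ← Complex.re_ofReal_mul, Finset.mul_sum]
      congr 1
      apply Finset.sum_congr rfl
      intro i _
      rw [Finset.mul_sum]
      apply Finset.sum_congr rfl
      intro j _
      simp only [Pi.smul_apply, Complex.real_smul]
      ring)

lemma Bt_apply (H : Fin 4 → Fin 4 → ℂ) (x y : S4 → Fin 4 → ℂ) : Bt H x y = ∑ γ : S4,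
    (∑ i, ∑ j, conj (x γ i) * H (γ i) (γ j) * y γ j).re := rfl

lemma Bt_symm {H : Fin 4 → Fin 4 → ℂ} (hH : ∀ i j, H j i = conj (H i j))
    (x y : S4 → Fin 4 → ℂ) : Bt H x y = Bt H y x := by
  rw [Bt_apply, Bt_apply]
  apply Finset.sum_congr rfl
  intro γ _
  rw [← Complex.conj_re, map_sum]
  congr 1
  simp only [map_sum, map_mul, Complex.conj_conj]
  rw [Finset.sum_comm]
  apply Finset.sum_congr rfl
  intro j _
  apply Finset.sum_congr rfl
  intro i _
  rw [← hH]
  ring

lemma Bt_pos {H : Fin 4 → Fin 4 → ℂ}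
    (hp : ∀ z : Fin 4 → ℂ, 0 ≤ (∑ i, ∑ j, conj (z i) * H i j * z j).re)
    (x : S4 → Fin 4 → ℂ) : 0 ≤ Bt H x x := by
  rw [Bt_apply]
  apply Finset.sum_nonneg
  intro γ _
  have := hp (fun i => x γ (γ⁻¹ i))
  rw [← Equiv.sum_comp γ] at this
  have h2 : ∀ i, ∑ j, conj (x γ (γ⁻¹ (γ i))) * H (γ i) j * x γ (γ⁻¹ j) =
      ∑ j, conj (x γ i) * H (γ i) (γ j) * x γ j := by
    intro i
    rw [← Equiv.sum_comp γ]
    simp
  simp only [h2] at this
  exact this

/-- the vector of a row -/
noncomputable def rv (ρ : S4 → S4) (H : Fin 4 → Fin 4 → ℂ) (v : Fin 4 → ℂ) (r : Row) :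
    S4 → Fin 4 → ℂ := fun γ => Pi.single (Fin.ofNat 4 r.i)
      ((r.F.map (env (fun i j => H (γ i) (γ j)) (fun a => v (ρ γ a)))).prod)

lemma Bt_rv {ρ : S4 → S4} {H : Fin 4 → Fin 4 → ℂ} (hH : ∀ i j, H j i = conj (H i j))
    (hd : ∀ i, H i i = 1) (v : Fin 4 → ℂ) {r t : Row} (hr : r.i < 4) (ht : t.i < 4) :
    Bt H (rv ρ H v r) (rv ρ H v t) = EF ρ H v (conjF r.F ++ t.F ++ hf r.i t.i) := by
  rw [Bt_apply, EF]
  apply Finset.sum_congr rfl
  intro γ _
  congr 1
  set H' : Fin 4 → Fin 4 → ℂ := fun i j => H (γ i) (γ j) with hH'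
  set v' : Fin 4 → ℂ := fun a => v (ρ γ a) with hv'
  have h1 : ∑ i, ∑ j, conj (rv ρ H v r γ i) * H (γ i) (γ j) * rv ρ H v t γ j =
      conj ((r.F.map (env H' v')).prod) * H' (Fin.ofNat 4 r.i) (Fin.ofNat 4 t.i) *
        (t.F.map (env H' v')).prod := by
    rw [Finset.sum_eq_single (Fin.ofNat 4 r.i)]
    · rw [Finset.sum_eq_single (Fin.ofNat 4 t.i)]
      · simp only [rv, Pi.single_eq_same]
        rfl
      · intro j _ hj
        simp only [rv, Pi.single_eq_of_ne hj, mul_zero]
      · intro h; exact absurd (Finset.mem_univ _) h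
    · intro i _ hi
      simp only [rv, Pi.single_eq_of_ne hi, map_zero, zero_mul, Finset.sum_const_zero]
    · intro h; exact absurd (Finset.mem_univ _) h
  rw [h1, List.map_append, List.map_append, List.prod_append, List.prod_append, conjF_eq,
    List.map_map]
  have h2 : (r.F.map (env H' v' ∘ cc)).prod = conj ((r.F.map (env H' v')).prod) := by
    have : env H' v' ∘ cc = (starRingEnd ℂ) ∘ (env H' v') := by
      funext f
      exact env_cc (fun i j => hH _ _) _ f
    rw [this, ← List.map_map, map_list_prod]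
  have h3 : ((hf r.i t.i).map (env H' v')).prod = H' (Fin.ofNat 4 r.i) (Fin.ofNat 4 t.i) := by
    unfold hf
    by_cases h : r.i = t.i
    · have e : Nat.beq r.i t.i = true := by rw [Nat.beq_eq]; exact h
      rw [e, h]
      simp [hH', hd]
    · have e : Nat.beq r.i t.i = false := by rw [Bool.eq_false_iff, Ne, Nat.beq_eq]; exact h
      rw [e]
      have e1 : (Fin.ofNat 4 r.i).val = r.i := Nat.mod_eq_of_lt hr
      have e2 : (Fin.ofNat 4 t.i).val = t.i := Nat.mod_eq_of_lt ht
      have := env_h H' v' (Fin.ofNat 4 r.i) (Fin.ofNat 4 t.i)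
      rw [e1, e2] at this
      simpa using this
  rw [h2, h3]
  ring

/-- Soundness for one family. -/
lemma fam_sound {ρ : S4 → S4} (hρ : ∀ a b, ρ (a * b) = ρ a * ρ b) {H : Fin 4 → Fin 4 → ℂ}
    (hH : ∀ i j, H j i = conj (H i j)) (hd : ∀ i, H i i = 1)
    (hp : ∀ z : Fin 4 → ℂ, 0 ≤ (∑ i, ∑ j, conj (z i) * H i j * z j).re)
    (v : Fin 4 → ℂ) {WW RT : ℕ} (hW : wchk ρ WW = true) {m : Fam}
    (hpsd : psdchk m.K m.s m.Cs m.Y = true) (hm : famok WW RT m = true) :
    0 ≤ esum (fun c => ecode ρ H v (rep RT c)) (fterms m.Y m.rs m.Ns).flatten := by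
  unfold famok at hm
  rw [Bool.and_eq_true] at hm
  obtain ⟨h1, h2⟩ := hm
  unfold rowok at h1
  rw [allL_iff] at h1
  have h1' : ∀ r ∈ m.rs, r.i < 4 ∧ r.F.length ≤ 7 ∧ ∀ f ∈ r.F, f < 24 := by
    intro r hr
    have := h1 r hr
    rw [Bool.and_eq_true, facok_iff, Nat.ble_eq] at this
    exact ⟨this.1, this.2⟩
  rw [esum_fterms m.Y _ (fun r t => Bt H (rv ρ H v r) (rv ρ H v t)) (ck WW RT) m.rs m.Ns ?_ h2]
  · exact gsum_nonneg (Bt H) (Bt_pos hp) (Bt_symm hH) hpsd (rv ρ H v) m.rs
  · intro r hr t ht g c hck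
    obtain ⟨r1, r2, r3⟩ := h1' r hr
    obtain ⟨t1, t2, t3⟩ := h1' t ht
    rw [Bt_rv hH hd v r1 t1]
    apply ck_sound hρ hH v hW _ t3 _ _ hck
    · intro f hf'
      rw [conjF_eq, List.mem_map] at hf'
      obtain ⟨f', hf'', rfl⟩ := hf'
      exact cc_lt (r3 f' hf'')
    · intro f hf'
      unfold hf at hf'
      by_cases h : r.i = t.i
      · have e : Nat.beq r.i t.i = true := by rw [Nat.beq_eq]; exact h
        rw [e] at hf'
        simp at hf'
      · have e : Nat.beq r.i t.i = false := by rw [Bool.eq_false_iff, Ne, Nat.beq_eq]; exact h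
        rw [e] at hf'
        simp at hf'
        omega
    · rw [conjF_eq, List.length_map]
      have : (hf r.i t.i).length ≤ 1 := by
        unfold hf
        by_cases h : r.i = t.i
        · have e : Nat.beq r.i t.i = true := by rw [Nat.beq_eq]; exact h
          rw [e]; simp
        · have e : Nat.beq r.i t.i = false := by rw [Bool.eq_false_iff, Ne, Nat.beq_eq]; exact h
          rw [e]; simp
      omega

/-! ### Packed evaluation -/

noncomputable def psK (S : ℕ) (l : List (ℕ × ℤ)) : ℤ :=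
  List.rec (motive := fun _ => ℤ) 0
    (fun t _ ih => Int.add (Int.mul t.2 (Int.ofNat (Nat.pow 2 (Nat.mul S t.1)))) ih) l

lemma psK_eq (S : ℕ) (l : List (ℕ × ℤ)) : psK S l = psum (2 ^ S) l := by
  induction l with
  | nil => rfl
  | cons t l ih =>
    have : psK S (t :: l) = t.2 * ((2 ^ (S * t.1) : ℕ) : ℤ) + psK S l := rfl
    rw [this, ih]
    simp only [psum, List.map_cons, List.sum_cons]
    push_cast
    rw [pow_mul]

noncomputable def psKK (S : ℕ) (l : List (List (ℕ × ℤ))) : ℤ :=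
  List.rec (motive := fun _ => ℤ) 0 (fun t _ ih => Int.add (psK S t) ih) l

lemma psum_append (B : ℤ) (l m : List (ℕ × ℤ)) : psum B (l ++ m) = psum B l + psum B m := by
  simp [psum]

lemma asum_append (l m : List (ℕ × ℤ)) : asum (l ++ m) = asum l + asum m := by
  simp [asum]

lemma psKK_eq (S : ℕ) (l : List (List (ℕ × ℤ))) : psKK S l = psum (2 ^ S) l.flatten := by
  induction l with
  | nil => rfl
  | cons t l ih =>
    have : psKK S (t :: l) = psK S t + psKK S l := rfl
    rw [this, ih, psK_eq, List.flatten_cons, psum_append]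

noncomputable def asK (l : List (ℕ × ℤ)) : ℕ :=
  List.rec (motive := fun _ => ℕ) 0 (fun t _ ih => Nat.add t.2.natAbs ih) l

lemma asK_eq (l : List (ℕ × ℤ)) : (asK l : ℤ) = asum l := by
  induction l with
  | nil => rfl
  | cons t l ih =>
    have : asK (t :: l) = t.2.natAbs + asK l := rfl
    rw [this]
    simp only [asum, List.map_cons, List.sum_cons]
    push_cast
    rw [ih, asum]

noncomputable def asKK (l : List (List (ℕ × ℤ))) : ℕ :=
  List.rec (motive := fun _ => ℕ) 0 (fun t _ ih => Nat.add (asK t) ih) l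

lemma asKK_eq (l : List (List (ℕ × ℤ))) : (asKK l : ℤ) = asum l.flatten := by
  induction l with
  | nil => rfl
  | cons t l ih =>
    have : asKK (t :: l) = asK t + asKK l := rfl
    rw [this, List.flatten_cons, asum_append]
    push_cast
    rw [ih, asK_eq]

/-- decoding of packed integers -/
noncomputable def decZ (w off n : ℕ) : ℕ → List ℤ :=
  Nat.rec (motive := fun _ => ℕ → List ℤ) (fun _ => [])
    (fun _ ih N => Int.subNatNat (Nat.mod N (Nat.pow 2 w)) off :: ih (Nat.shiftRight N w)) n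

/-- **Certificate theorem.** -/
theorem cert {ρ : S4 → S4} (hρ : ∀ a b, ρ (a * b) = ρ a * ρ b) {ε : S4 → ℤ}
    (hε : ∀ a g, ε (a⁻¹ * g * a) = ε g) {H : Fin 4 → Fin 4 → ℂ}
    (hH : ∀ i j, H j i = conj (H i j)) (hd : ∀ i, H i i = 1)
    (hp : ∀ z : Fin 4 → ℂ, 0 ≤ (∑ i, ∑ j, conj (z i) * H i j * z j).re)
    (hdet : (Matrix.of H).det = 0) (v : Fin 4 → ℂ) {WW RT : ℕ} (hW : wchk ρ WW = true)
    (S : ℕ) (ms : List Fam) (hms : ∀ m ∈ ms, psdchk m.K m.s m.Cs m.Y = true ∧ famok WW RT m = true)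
    {D : ℤ} (hD : 0 < D) {GN DN : List ℕ} {Q : List (ℤ × List ℕ)}
    (hG : ettc WW RT (gl ρ ε D) GN = true) (hQ : ettc WW RT (dl Q) DN = true)
    (hsum : (ms.map (fun m => psKK S (fterms m.Y m.rs m.Ns))).sum + psKK S (ett (gl ρ ε D) GN) +
      psKK S (ett (dl Q) DN) = 0)
    (habs : (ms.map (fun m => asKK (fterms m.Y m.rs m.Ns))).sum + asKK (ett (gl ρ ε D) GN) +
      asKK (ett (dl Q) DN) < 2 ^ S) :
    0 ≤ (Gf ρ ε H v).re := by
  set e : ℕ → ℝ := fun c => ecode ρ H v (rep RT c) with he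
  set L : List (ℕ × ℤ) := (ms.map (fun m => (fterms m.Y m.rs m.Ns).flatten)).flatten ++
    (ett (gl ρ ε D) GN).flatten ++ (ett (dl Q) DN).flatten with hL
  have h1 : psum (2 ^ S) L = 0 := by
    rw [hL, psum_append, psum_append, ← psKK_eq S (ett (gl ρ ε D) GN),
      ← psKK_eq S (ett (dl Q) DN), ← hsum]
    congr 2
    clear hsum habs hms hL L
    induction ms with
    | nil => rfl
    | cons m ms ih =>
      rw [List.map_cons, List.flatten_cons, psum_append, ih, ← psKK_eq, List.map_cons,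
        List.sum_cons]
  have h2 : asum L < 2 ^ S := by
    rw [hL, asum_append, asum_append, ← asKK_eq (ett (gl ρ ε D) GN),
      ← asKK_eq (ett (dl Q) DN)]
    have : asum ((ms.map (fun m => (fterms m.Y m.rs m.Ns).flatten)).flatten) =
        (((ms.map (fun m => asKK (fterms m.Y m.rs m.Ns))).sum : ℕ) : ℤ) := by
      clear hsum habs hms hL h1 L
      induction ms with
      | nil => rfl
      | cons m ms ih =>
        rw [List.map_cons, List.flatten_cons, asum_append, ih, ← asKK_eq, List.map_cons,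
          List.sum_cons]
        push_cast
        rfl
    rw [this]
    exact_mod_cast habs
  have h3 := esum_eq_zero h1 h2 e
  rw [hL, esum_append, esum_append, esum_ett hρ hH v hW _ _ hG, esum_ett hρ hH v hW _ _ hQ,
    esF_gl hρ hε hd v D, esF_dl ρ hd hdet v Q] at h3
  have h4 : 0 ≤ esum e ((ms.map (fun m => (fterms m.Y m.rs m.Ns).flatten)).flatten) := by
    clear hsum habs hL h1 h2 h3 L
    induction ms with
    | nil => simp [esum]
    | cons m ms ih =>
      rw [List.map_cons, List.flatten_cons, esum_append]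
      have := hms m (by simp)
      exact add_nonneg (fam_sound hρ hH hd hp v hW this.1 this.2)
        (ih (fun m' hm' => hms m' (by simp [hm'])))
  have h5 : (0 : ℝ) < D := by exact_mod_cast hD
  have h6 : 0 ≤ (D : ℝ) * (24 * (Gf ρ ε H v).re) := by linarith
  have h7 : 0 ≤ 24 * (Gf ρ ε H v).re := (mul_nonneg_iff_of_pos_left h5).1 h6
  linarith

end Pool.Agent.Lib.MP_61cf81_al
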