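import Mathlib
import Pool.Agent.Lib.MP_61cf81_al.Form

/-!
# The action on the three pairings
-/

set_option autoImplicit false

namespace Pool.Agent.Lib.MP_61cf81_al

/-- index of the pairing that contains `{x, y}` -/
def part22 (x y : Fin 4) : Fin 4 :=
  match x, y with
  | 0, 2 => 1
  | 2, 0 => 1
  | 1, 3 => 1
  | 3, 1 => 1
  | 0, 3 => 2
  | 3, 0 => 2
  | 1, 2 => 2
  | 2, 1 => 2
  | _, _ => 0

def f22 (γ : S4) (a : Fin 4) : Fin 4 := if a = 3 then 3 else part22 (γ 0) (γ (a + 1))

lemma f22_mul : ∀ (γ g : S4) (a : Fin 4), f22 (γ * g) a = f22 γ (f22 g a) := by decide +kernel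

lemma f22_one : ∀ a : Fin 4, f22 1 a = a := by decide +kernel

def rho22 (γ : S4) : S4 where
  toFun := f22 γ
  invFun := f22 γ⁻¹
  left_inv := by
    intro a
    rw [← f22_mul, inv_mul_cancel, f22_one]
  right_inv := by
    intro a
    rw [← f22_mul, mul_inv_cancel, f22_one]

lemma rho22_mul (γ g : S4) : rho22 (γ * g) = rho22 γ * rho22 g := by
  ext a
  exact congrArg Fin.val (f22_mul γ g a)

end Pool.Agent.Lib.MP_61cf81_al
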