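import Pool.Agent.Lib.MP_61cf81_al.Data31

/-!
# The certificate for the representation `(3,1)`, second part
-/

set_option autoImplicit false
set_option maxRecDepth 100000

namespace Pool.Agent.Lib.MP_61cf81_al.C31

theorem sum0 : psKK S (fterms m0.Y m0.rs m0.Ns) = P0 ∧
    asKK (fterms m0.Y m0.rs m0.Ns) = A0 := by decide +kernel

end Pool.Agent.Lib.MP_61cf81_al.C31
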