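import Pool.Agent.Lib.MP_61cf81_al.Cert31a
import Pool.Agent.Lib.MP_61cf81_al.Cert31b

/-!
# The certificate for the representation `(3,1)`
-/

set_option autoImplicit false

open scoped ComplexConjugate

namespace Pool.Agent.Lib.MP_61cf81_al.C31

theorem main {H : Fin 4 → Fin 4 → ℂ}
    (hH : ∀ i j, H j i = conj (H i j)) (hd : ∀ i, H i i = 1)
    (hp : ∀ z : Fin 4 → ℂ, 0 ≤ (∑ i, ∑ j, conj (z i) * H i j * z j).re)
    (hdet : (Matrix.of H).det = 0) (v : Fin 4 → ℂ) :
    0 ≤ (Gf (fun g => g) (fun _ => 1) H v).re := by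
  refine cert (fun _ _ => rfl) (fun a g => rfl) hH hd hp hdet v w_ok S [m0] ?_ tot.2.2
    gok qok ?_ ?_
  · intro m hm
    simp only [List.mem_cons, List.not_mem_nil, or_false] at hm
    rcases hm with rfl
    exact ⟨psd0, fam0⟩
  · simp only [List.map_cons, List.map_nil, List.sum_cons, List.sum_nil]
    rw [sum0.1, sumG.1, sumD.1, add_zero]
    exact tot.1
  · simp only [List.map_cons, List.map_nil, List.sum_cons, List.sum_nil]
    rw [sum0.2, sumG.2, sumD.2, add_zero]
    exact tot.2.1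

end Pool.Agent.Lib.MP_61cf81_al.C31
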