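import Pool.Agent.Lib.MP_61cf81_al.Data31

/-!
# The certificate for the representation `(3,1)`, first part
-/

set_option autoImplicit false
set_option maxRecDepth 100000

namespace Pool.Agent.Lib.MP_61cf81_al.C31

theorem w_ok : wchk (fun g => g) WW = true := by decide +kernel

theorem gok : ettc WW RT (gl (fun g => g) (fun _ => 1) D) GN = true := by decide +kernel

theorem qok : ettc WW RT (dl Q) DN = true := by decide +kernel

theorem sumG : psKK S (ett (gl (fun g => g) (fun _ => 1) D) GN) = PG ∧
    asKK (ett (gl (fun g => g) (fun _ => 1) D) GN) = AG := by decide +kernel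

theorem sumD : psKK S (ett (dl Q) DN) = PD ∧ asKK (ett (dl Q) DN) = AD := by decide +kernel

theorem tot : P0 + PG + PD = 0 ∧ A0 + AG + AD < 2 ^ S ∧ 0 < D := by decide +kernel

theorem fam0 : famok WW RT m0 = true := by decide +kernel

theorem psd0 : psdchk m0.K m0.s m0.Cs m0.Y = true := by decide +kernel

end Pool.Agent.Lib.MP_61cf81_al.C31
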