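import Mathlib
import Pool.Agent.Lib.MP_61cf81_al.Form

/-!
# From singular correlation matrices to all positive semidefinite matrices
-/

set_option autoImplicit false

open scoped ComplexConjugate ComplexOrder
open Matrix

namespace Pool.Agent.Lib.MP_61cf81_al

lemma psd_re {A : Matrix (Fin 4) (Fin 4) ℂ} (hA : A.PosSemidef) (z : Fin 4 → ℂ) :
    0 ≤ (∑ i, ∑ j, conj (z i) * A i j * z j).re := by
  have h := hA.dotProduct_mulVec_nonneg z
  have h2 : star z ⬝ᵥ (A *ᵥ z) = ∑ i, ∑ j, conj (z i) * A i j * z j := by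
    simp only [dotProduct, mulVec, Finset.mul_sum, Pi.star_apply, mul_assoc]
    rfl
  rw [h2] at h
  exact (Complex.le_def.1 h).1

lemma Gf_scale (ρ : S4 → S4) (ε : S4 → ℤ) (d : Fin 4 → ℝ) (H : Fin 4 → Fin 4 → ℂ)
    (v : Fin 4 → ℂ) : Gf ρ ε (fun i j => (d i : ℂ) * H i j * (d j : ℂ)) v =
      (((∏ j, d j) ^ 2 : ℝ) : ℂ) * Gf ρ ε H v := by
  unfold Gf
  rw [Finset.mul_sum]
  apply Finset.sum_congr rfl
  intro g _
  rw [← mul_assoc]
  congr 1
  rw [Finset.prod_mul_distrib, Finset.prod_mul_distrib, Equiv.prod_comp g (fun j => (d j : ℂ))]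
  push_cast
  ring

/-- singular matrices -/
lemma Gf_sing {ρ : S4 → S4} {ε : S4 → ℤ}
    (hc : ∀ H : Fin 4 → Fin 4 → ℂ, (∀ i j, H j i = conj (H i j)) → (∀ i, H i i = 1) →
      (∀ z : Fin 4 → ℂ, 0 ≤ (∑ i, ∑ j, conj (z i) * H i j * z j).re) →
      (Matrix.of H).det = 0 → ∀ v, 0 ≤ (Gf ρ ε H v).re)
    {A : Matrix (Fin 4) (Fin 4) ℂ} (hA : A.PosSemidef) (hdet : A.det = 0) (v : Fin 4 → ℂ) :
    0 ≤ (Gf ρ ε A v).re := by
  by_cases h0 : ∃ i, A i i = 0
  · obtain ⟨i, hi⟩ := h0
    have h1 : star (Pi.single i (1 : ℂ)) ⬝ᵥ (A *ᵥ Pi.single i 1) = 0 := by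
      rw [mulVec_single_one]
      have : star (Pi.single i (1 : ℂ) : Fin 4 → ℂ) = Pi.single i 1 := by
        rw [← Pi.single_star, star_one]
      rw [this, single_one_dotProduct]
      exact hi
    rw [hA.dotProduct_mulVec_zero_iff, mulVec_single_one] at h1
    have h2 : ∀ j, A j i = 0 := fun j => congrFun h1 j
    have h3 : Gf ρ ε A v = 0 := by
      unfold Gf
      apply Finset.sum_eq_zero
      intro g _
      have : ∏ j, A (g j) j = 0 := Finset.prod_eq_zero (Finset.mem_univ i) (h2 _)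
      rw [this, zero_mul]
    rw [h3]
    simp
  · push Not at h0
    have hpos : ∀ i, 0 < (A i i).re := by
      intro i
      have h1 := Complex.le_def.1 (hA.diag_nonneg (i := i))
      rcases lt_or_eq_of_le h1.1 with h2 | h2
      · simpa using h2
      · exact absurd (Complex.ext h2.symm h1.2.symm) (h0 i)
    have him : ∀ i, A i i = (((A i i).re : ℝ) : ℂ) := by
      intro i
      have h1 := Complex.le_def.1 (hA.diag_nonneg (i := i))
      apply Complex.ext
      · simp
      · simpa using h1.2.symm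
    set d : Fin 4 → ℝ := fun i => (Real.sqrt (A i i).re)⁻¹ with hd
    set e : Fin 4 → ℝ := fun i => Real.sqrt (A i i).re with he
    have hepos : ∀ i, 0 < e i := fun i => Real.sqrt_pos.2 (hpos i)
    have hed : ∀ i, e i * d i = 1 := fun i => mul_inv_cancel₀ (hepos i).ne'
    set Dm : Matrix (Fin 4) (Fin 4) ℂ := diagonal (fun i => (d i : ℂ)) with hDm
    have hDt : Dmᴴ = Dm := by
      rw [hDm, diagonal_conjTranspose]
      congr 1
      funext i
      simp
    set H : Matrix (Fin 4) (Fin 4) ℂ := Dmᴴ * A * Dm with hHdef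
    have hHp : H.PosSemidef := hA.conjTranspose_mul_mul_same Dm
    have hHe : ∀ i j, H i j = (d i : ℂ) * A i j * (d j : ℂ) := by
      intro i j
      rw [hHdef, hDt, hDm, mul_diagonal, diagonal_mul]
    have hHd : ∀ i, H i i = 1 := by
      intro i
      rw [hHe, him i]
      have : d i * (A i i).re * d i = 1 := by
        have h1 : (A i i).re = e i * e i := (Real.mul_self_sqrt (hpos i).le).symm
        rw [h1]
        calc d i * (e i * e i) * d i = (e i * d i) * (e i * d i) := by ring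
          _ = 1 := by rw [hed]; ring
      exact_mod_cast this
    have hHdet : (Matrix.of H).det = 0 := by
      change H.det = 0
      rw [hHdef, det_mul, det_mul, hdet]
      simp
    have key := hc H (fun i j => (hHp.1.apply j i).symm) hHd (psd_re hHp) hHdet v
    have hAe : (A : Fin 4 → Fin 4 → ℂ) = fun i j => (e i : ℂ) * H i j * (e j : ℂ) := by
      funext i j
      rw [hHe]
      have h1 : ((e i : ℂ) * (d i : ℂ)) = 1 := by exact_mod_cast hed i
      have h2 : ((e j : ℂ) * (d j : ℂ)) = 1 := by exact_mod_cast hed j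
      calc A i j = ((e i : ℂ) * (d i : ℂ)) * A i j * ((e j : ℂ) * (d j : ℂ)) := by
            rw [h1, h2]; ring
        _ = _ := by ring
    have h5 : Gf ρ ε A v = (((∏ j, e j) ^ 2 : ℝ) : ℂ) * Gf ρ ε H v :=
      (congrArg (fun M : Fin 4 → Fin 4 → ℂ => Gf ρ ε M v) hAe).trans (Gf_scale ρ ε e H v)
    rw [h5, Complex.re_ofReal_mul]
    exact mul_nonneg (sq_nonneg _) key

/-- row and column `i` replaced by those of the identity -/
def dec (i : Fin 4) (A : Matrix (Fin 4) (Fin 4) ℂ) : Matrix (Fin 4) (Fin 4) ℂ :=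
  Matrix.of fun a b => if a = i ∨ b = i then (if a = b then 1 else 0) else A a b

lemma dec_psd (i : Fin 4) {A : Matrix (Fin 4) (Fin 4) ℂ} (hA : A.PosSemidef) :
    (dec i A).PosSemidef := by
  set B : Matrix (Fin 4) (Fin 4) ℂ := diagonal (fun a => if a = i then 0 else 1) with hB
  have hBt : Bᴴ = B := by
    rw [hB, diagonal_conjTranspose]
    congr 1
    funext a
    simp only [Pi.star_apply]
    split_ifs <;> simp
  have h1 : dec i A = Bᴴ * A * B + diagonal (fun a => if a = i then 1 else 0) := by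
    ext a b
    rw [hBt, Matrix.add_apply, hB, mul_diagonal, diagonal_mul, diagonal_apply]
    simp only [dec, of_apply]
    by_cases ha : a = i
    · subst ha
      by_cases hb : a = b
      · subst hb; simp
      · simp [hb]
    · by_cases hb : b = i
      · subst hb; simp [ha]
      · by_cases hab : a = b
        · subst hab; simp [ha]
        · simp [ha, hb, hab]
  rw [h1]
  apply (hA.conjTranspose_mul_mul_same B).add
  apply PosSemidef.diagonal
  intro a
  simp only [Pi.zero_apply]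
  split_ifs
  · exact zero_le_one
  · exact le_refl _

lemma Gf_dec (ρ : S4 → S4) (ε : S4 → ℤ) (A : Matrix (Fin 4) (Fin 4) ℂ) (i : Fin 4) (t : ℂ)
    (v : Fin 4 → ℂ) : Gf ρ ε A v =
      Gf ρ ε (A - t • Matrix.single i i (1 : ℂ)) v + t * Gf ρ ε (dec i A) v := by
  unfold Gf
  rw [Finset.mul_sum, ← Finset.sum_add_distrib]
  apply Finset.sum_congr rfl
  intro g _
  rw [← mul_assoc, ← add_mul]
  congr 1
  rw [← Finset.mul_prod_erase Finset.univ (fun j => A (g j) j) (Finset.mem_univ i),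
    ← Finset.mul_prod_erase Finset.univ (fun j => (A - t • Matrix.single i i (1 : ℂ)) (g j) j)
      (Finset.mem_univ i),
    ← Finset.mul_prod_erase Finset.univ (fun j => (dec i A) (g j) j) (Finset.mem_univ i)]
  have h1 : ∏ j ∈ Finset.univ.erase i, (A - t • Matrix.single i i (1 : ℂ)) (g j) j =
      ∏ j ∈ Finset.univ.erase i, A (g j) j := by
    apply Finset.prod_congr rfl
    intro j hj
    have hji : j ≠ i := Finset.ne_of_mem_erase hj
    rw [Matrix.sub_apply, Matrix.smul_apply, Matrix.single_apply, if_neg]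
    · simp
    · rintro ⟨_, h⟩
      exact hji h.symm
  rw [h1]
  by_cases hg : g i = i
  · have h2 : ∏ j ∈ Finset.univ.erase i, (dec i A) (g j) j =
        ∏ j ∈ Finset.univ.erase i, A (g j) j := by
      apply Finset.prod_congr rfl
      intro j hj
      have hji : j ≠ i := Finset.ne_of_mem_erase hj
      have hgj : g j ≠ i := fun h => hji (g.injective (h.trans hg.symm))
      simp [dec, hji, hgj]
    rw [h2, hg]
    simp [dec]
    ring
  · have h3 : (dec i A) (g i) i = 0 := by
      simp [dec, hg]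
    have h4 : (A - t • Matrix.single i i (1 : ℂ)) (g i) i = A (g i) i := by
      rw [Matrix.sub_apply, Matrix.smul_apply, Matrix.single_apply, if_neg]
      · simp
      · rintro ⟨h, _⟩
        exact hg h.symm
    rw [h3, h4]
    ring

/-- Schur complement step -/
lemma psd_step {A : Matrix (Fin 4) (Fin 4) ℂ} (hA : A.PosDef) (i : Fin 4) :
    ∃ t : ℝ, 0 < t ∧ (A - (t : ℂ) • Matrix.single i i (1 : ℂ)).PosSemidef ∧
      (A - (t : ℂ) • Matrix.single i i (1 : ℂ)).det = 0 := by
  have hu : IsUnit A := hA.isUnit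
  have hud : IsUnit A.det := (Matrix.isUnit_iff_isUnit_det A).1 hu
  have hinv := hA.inv
  set w : Fin 4 → ℂ := A⁻¹ *ᵥ Pi.single i 1 with hw
  have hAw : A *ᵥ w = Pi.single i 1 := by
    rw [hw, mulVec_mulVec, Matrix.mul_nonsing_inv _ hud, one_mulVec]
  have hwi : w i = A⁻¹ i i := by
    rw [hw, mulVec_single_one]; rfl
  have hpos := hinv.diag_pos (i := i)
  set s : ℝ := (A⁻¹ i i).re with hs
  have hspos : 0 < s := by
    have := (Complex.lt_def.1 hpos).1
    simpa using this
  have hseq : A⁻¹ i i = (s : ℂ) := by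
    apply Complex.ext
    · simp [hs]
    · have := (Complex.lt_def.1 hpos).2
      simpa using this.symm
  refine ⟨s⁻¹, inv_pos.2 hspos, ?_, ?_⟩
  · apply PosSemidef.of_dotProduct_mulVec_nonneg
    · apply IsHermitian.sub hA.1
      rw [IsHermitian, conjTranspose_smul, conjTranspose_single]
      simp
    · intro x
      -- complete the square
      have hmv : (A - ((s⁻¹ : ℝ) : ℂ) • Matrix.single i i (1 : ℂ)) *ᵥ x =
          A *ᵥ x - Pi.single i (((s⁻¹ : ℝ) : ℂ) * x i) := by
        rw [sub_mulVec, smul_mulVec, Matrix.single_mulVec]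
        funext a
        by_cases ha : a = i
        · subst ha; simp
        · simp [ha]
      rw [hmv]
      have hy := hA.posSemidef.dotProduct_mulVec_nonneg (x - (((s⁻¹ : ℝ) : ℂ) * x i) • w)
      have e1 : A *ᵥ (x - (((s⁻¹ : ℝ) : ℂ) * x i) • w) =
          A *ᵥ x - Pi.single i (((s⁻¹ : ℝ) : ℂ) * x i) := by
        rw [mulVec_sub, mulVec_smul, hAw]
        congr 1
        funext a
        by_cases ha : a = i
        · subst ha; simp
        · simp [ha]
      rw [e1, star_sub, sub_dotProduct] at hy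
      have e2 : star ((((s⁻¹ : ℝ) : ℂ) * x i) • w) ⬝ᵥ
          (A *ᵥ x - Pi.single i (((s⁻¹ : ℝ) : ℂ) * x i)) = 0 := by
        rw [star_smul, smul_dotProduct, dotProduct_sub, dotProduct_mulVec]
        have e3 : star w ᵥ* A = Pi.single i 1 := by
          have : star (Aᴴ *ᵥ w) = star w ᵥ* A := by
            rw [star_mulVec, conjTranspose_conjTranspose]
          rw [← this, hA.1.eq, hAw, ← Pi.single_star, star_one]
        rw [e3, single_one_dotProduct, dotProduct_single, Pi.star_apply, hwi, hseq]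
        have : (s : ℂ) * ((s⁻¹ : ℝ) : ℂ) = 1 := by
          exact_mod_cast mul_inv_cancel₀ hspos.ne'
        have hss : star ((s : ℝ) : ℂ) = (s : ℂ) := Complex.conj_ofReal s
        rw [hss, ← mul_assoc, this, one_mul, sub_self, smul_zero]
      rw [e2, sub_zero] at hy
      exact hy
  · rw [← Matrix.exists_mulVec_eq_zero_iff]
    refine ⟨w, ?_, ?_⟩
    · intro h
      rw [h] at hwi
      rw [hseq] at hwi
      have : (s : ℂ) = 0 := hwi.symm
      exact hspos.ne' (by exact_mod_cast this)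
    · rw [sub_mulVec, hAw, smul_mulVec, Matrix.single_mulVec, hwi, hseq]
      funext a
      by_cases ha : a = i
      · subst ha
        have hs0 : (s : ℂ) ≠ 0 := by exact_mod_cast hspos.ne'
        have : (s : ℂ)⁻¹ * (s : ℂ) = 1 := inv_mul_cancel₀ hs0
        simp [this]
      · simp [ha]

lemma Gf_step {ρ : S4 → S4} {ε : S4 → ℤ}
    (hs : ∀ A : Matrix (Fin 4) (Fin 4) ℂ, A.PosSemidef → A.det = 0 →
      ∀ v, 0 ≤ (Gf ρ ε A v).re) (i : Fin 4)
    {A : Matrix (Fin 4) (Fin 4) ℂ} (hA : A.PosSemidef) (v : Fin 4 → ℂ)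
    (hd : 0 ≤ (Gf ρ ε (dec i A) v).re) : 0 ≤ (Gf ρ ε A v).re := by
  by_cases hdet : A.det = 0
  · exact hs A hA hdet v
  · have hpd : A.PosDef := by
      rw [hA.posDef_iff_isUnit]
      exact (Matrix.isUnit_iff_isUnit_det A).2 (isUnit_iff_ne_zero.2 hdet)
    obtain ⟨t, ht, h1, h2⟩ := psd_step hpd i
    rw [Gf_dec ρ ε A i (t : ℂ) v, Complex.add_re, Complex.re_ofReal_mul]
    exact add_nonneg (hs _ h1 h2 v) (mul_nonneg ht.le hd)

theorem Gf_nonneg {ρ : S4 → S4} (hρ : ∀ a b, ρ (a * b) = ρ a * ρ b) {ε : S4 → ℤ}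
    (hε : ε 1 = 1)
    (hc : ∀ H : Fin 4 → Fin 4 → ℂ, (∀ i j, H j i = conj (H i j)) → (∀ i, H i i = 1) →
      (∀ z : Fin 4 → ℂ, 0 ≤ (∑ i, ∑ j, conj (z i) * H i j * z j).re) →
      (Matrix.of H).det = 0 → ∀ v, 0 ≤ (Gf ρ ε H v).re)
    {A : Matrix (Fin 4) (Fin 4) ℂ} (hA : A.PosSemidef) (v : Fin 4 → ℂ) :
    0 ≤ (Gf ρ ε A v).re := by
  have hs : ∀ A : Matrix (Fin 4) (Fin 4) ℂ, A.PosSemidef → A.det = 0 →
      ∀ v, 0 ≤ (Gf ρ ε A v).re := fun A hA hdet v => Gf_sing hc hA hdet v
  apply Gf_step hs 0 hA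
  apply Gf_step hs 1 (dec_psd 0 hA)
  apply Gf_step hs 2 (dec_psd 1 (dec_psd 0 hA))
  apply Gf_step hs 3 (dec_psd 2 (dec_psd 1 (dec_psd 0 hA)))
  have h1 : dec 3 (dec 2 (dec 1 (dec 0 A))) = 1 := by
    ext a b
    fin_cases a <;> fin_cases b <;> simp [dec]
  have hρ1 : ρ 1 = 1 := by
    have := hρ 1 1
    rw [one_mul] at this
    exact (mul_eq_left.1 this.symm)
  have h2 : Gf ρ ε (1 : Matrix (Fin 4) (Fin 4) ℂ) v = 0 := by
    unfold Gf
    apply Finset.sum_eq_zero
    intro g _
    by_cases hg : g = 1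
    · subst hg
      rw [hρ1, hε]
      simp
    · have : ∃ j, g j ≠ j := by
        by_contra hcon
        push Not at hcon
        exact hg (Equiv.ext hcon)
      obtain ⟨j, hj⟩ := this
      have : ∏ j, (1 : Matrix (Fin 4) (Fin 4) ℂ) (g j) j = 0 :=
        Finset.prod_eq_zero (Finset.mem_univ j) (Matrix.one_apply_ne hj)
      rw [this, zero_mul]
  rw [h1, h2]
  simp

end Pool.Agent.Lib.MP_61cf81_al
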