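import Mathlib
import Pool.Agent.Lib.MP_61cf81_al.Cert31
import Pool.Agent.Lib.MP_61cf81_al.Cert22
import Pool.Agent.Lib.MP_61cf81_al.Cert211
import Pool.Agent.Lib.MP_61cf81_al.Reduce

/-!
# Decomposition of the quadratic form
-/

set_option autoImplicit false

open scoped ComplexConjugate ComplexOrder
open Matrix

namespace Pool.Agent.Lib.MP_61cf81_al

lemma form31 {A : Matrix (Fin 4) (Fin 4) ℂ} (hA : A.PosSemidef) (v : Fin 4 → ℂ) :
    0 ≤ (Gf (fun g => g) (fun _ => 1) A v).re :=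
  Gf_nonneg (fun _ _ => rfl) rfl (fun _ hH hd hp hdet v => C31.main hH hd hp hdet v) hA v

lemma form22 {A : Matrix (Fin 4) (Fin 4) ℂ} (hA : A.PosSemidef) (v : Fin 4 → ℂ) :
    0 ≤ (Gf rho22 (fun _ => 1) A v).re :=
  Gf_nonneg rho22_mul rfl (fun _ hH hd hp hdet v => C22.main hH hd hp hdet v) hA v

lemma form211 {A : Matrix (Fin 4) (Fin 4) ℂ} (hA : A.PosSemidef) (v : Fin 4 → ℂ) :
    0 ≤ (Gf (fun g => g) sg A v).re :=
  Gf_nonneg (fun _ _ => rfl) (by rw [sg_eq]; simp)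
    (fun _ hH hd hp hdet v => C211.main hH hd hp hdet v) hA v

/-- number of coincidences -/
def Nn (ρ : S4 → S4) (σ τ : S4) : ℤ := ∑ c : Fin 4, if ρ σ c = ρ τ c then 1 else 0

/-- the character identity -/
lemma ident : ∀ σ τ : S4, 24 * (if σ = τ then (1 : ℤ) else 0) =
    3 * Nn (fun g => g) σ τ + 3 * ((sg σ * sg τ) * Nn (fun g => g) σ τ) +
      2 * Nn rho22 σ τ - 6 - 2 * (sg σ * sg τ) := by decide +kernel

lemma sg_mul (σ τ : S4) : sg (σ * τ) = sg σ * sg τ := by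
  rw [sg_eq, sg_eq, sg_eq, Equiv.Perm.sign_mul, Units.val_mul]

/-- the vector of partial sums -/
noncomputable def Vc (ρ : S4 → S4) (y : S4 → ℂ) (c a : Fin 4) : ℂ :=
  ∑ τ : S4, if ρ τ c = a then y τ else 0

lemma Vc_pair {ρ : S4 → S4} (hρ : ∀ a b, ρ (a * b) = ρ a * ρ b) (y : S4 → ℂ) (c : Fin 4)
    (g : S4) : ∑ a, conj (Vc ρ y c (ρ g a)) * Vc ρ y c a =
      ∑ σ : S4, ∑ τ : S4, conj (y σ) * y τ * (if ρ σ c = ρ (g * τ) c then 1 else 0) := by
  have h1 : ∀ a, conj (Vc ρ y c (ρ g a)) * Vc ρ y c a = ∑ σ : S4, ∑ τ : S4,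
      if ρ τ c = a then (if ρ σ c = ρ g a then conj (y σ) * y τ else 0) else 0 := by
    intro a
    rw [Vc, Vc, map_sum, Finset.sum_mul_sum]
    apply Finset.sum_congr rfl
    intro σ _
    apply Finset.sum_congr rfl
    intro τ _
    split_ifs <;> simp
  simp only [h1]
  rw [Finset.sum_comm]
  apply Finset.sum_congr rfl
  intro σ _
  rw [Finset.sum_comm]
  apply Finset.sum_congr rfl
  intro τ _
  rw [Finset.sum_ite_eq]
  rw [if_pos (Finset.mem_univ _), hρ, Equiv.Perm.mul_apply]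
  split_ifs <;> simp

lemma Vc_pair_one {ρ : S4 → S4} (hρ : ∀ a b, ρ (a * b) = ρ a * ρ b) (y : S4 → ℂ) (c : Fin 4) :
    ∑ a, conj (Vc ρ y c a) * Vc ρ y c a =
      ∑ σ : S4, ∑ τ : S4, conj (y σ) * y τ * (if ρ σ c = ρ τ c then 1 else 0) := by
  have hρ1 : ρ 1 = 1 := by
    have := hρ 1 1
    rw [one_mul] at this
    exact (mul_eq_left.1 this.symm)
  have := Vc_pair hρ y c 1
  simpa [hρ1] using this

/-- the general form -/
noncomputable def QK (A : Matrix (Fin 4) (Fin 4) ℂ) (x : S4 → ℂ) (K : S4 → S4 → S4 → ℤ) : ℂ :=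
  ∑ g : S4, (∏ j, A (g j) j) * ∑ σ : S4, ∑ τ : S4, conj (x σ) * x τ * (K g σ τ : ℂ)

lemma sum_Gf {ρ : S4 → S4} (hρ : ∀ a b, ρ (a * b) = ρ a * ρ b) (ε : S4 → ℤ)
    (A : Matrix (Fin 4) (Fin 4) ℂ) (y : S4 → ℂ) :
    ∑ c, Gf ρ ε A (Vc ρ y c) = QK A y (fun g σ τ => Nn ρ σ τ - ε g * Nn ρ σ (g * τ)) := by
  unfold Gf QK
  rw [Finset.sum_comm]
  apply Finset.sum_congr rfl
  intro g _
  rw [← Finset.mul_sum]
  congr 1
  rw [Finset.sum_sub_distrib, ← Finset.mul_sum]
  simp only [Vc_pair hρ, Vc_pair_one hρ]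
  rw [Finset.sum_comm, Finset.sum_comm (s := Finset.univ) (t := Finset.univ) (f := fun c σ =>
    ∑ τ : S4, conj (y σ) * y τ * (if ρ σ c = ρ (g * τ) c then (1 : ℂ) else 0)), Finset.mul_sum,
    ← Finset.sum_sub_distrib]
  apply Finset.sum_congr rfl
  intro σ _
  rw [Finset.sum_comm, Finset.sum_comm (s := Finset.univ) (t := Finset.univ) (f := fun c τ =>
    conj (y σ) * y τ * (if ρ σ c = ρ (g * τ) c then (1 : ℂ) else 0)), Finset.mul_sum,
    ← Finset.sum_sub_distrib]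
  apply Finset.sum_congr rfl
  intro τ _
  rw [← Finset.mul_sum, ← Finset.mul_sum]
  have h1 : ∀ a b : S4, ((Nn ρ a b : ℤ) : ℂ) = ∑ c, if ρ a c = ρ b c then (1 : ℂ) else 0 := by
    intro a b
    unfold Nn
    push_cast
    rfl
  push_cast
  rw [h1, h1]
  ring

lemma QK_sgx (A : Matrix (Fin 4) (Fin 4) ℂ) (x : S4 → ℂ) (K : S4 → S4 → S4 → ℤ) :
    QK A (fun τ => (sg τ : ℂ) * x τ) K = QK A x (fun g σ τ => sg σ * sg τ * K g σ τ) := by
  unfold QK
  apply Finset.sum_congr rfl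
  intro g _
  congr 1
  apply Finset.sum_congr rfl
  intro σ _
  apply Finset.sum_congr rfl
  intro τ _
  push_cast
  rw [map_mul]
  have : conj ((sg σ : ℤ) : ℂ) = (sg σ : ℂ) := by simp
  rw [this]
  ring

lemma QK_add (A : Matrix (Fin 4) (Fin 4) ℂ) (x : S4 → ℂ) (K L : S4 → S4 → S4 → ℤ) :
    QK A x (fun g σ τ => K g σ τ + L g σ τ) = QK A x K + QK A x L := by
  unfold QK
  rw [← Finset.sum_add_distrib]
  apply Finset.sum_congr rfl
  intro g _
  rw [← mul_add, ← Finset.sum_add_distrib]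
  congr 1
  apply Finset.sum_congr rfl
  intro σ _
  rw [← Finset.sum_add_distrib]
  apply Finset.sum_congr rfl
  intro τ _
  push_cast
  ring

lemma QK_smul (A : Matrix (Fin 4) (Fin 4) ℂ) (x : S4 → ℂ) (K : S4 → S4 → S4 → ℤ) (m : ℤ) :
    QK A x (fun g σ τ => m * K g σ τ) = m * QK A x K := by
  unfold QK
  rw [Finset.mul_sum]
  apply Finset.sum_congr rfl
  intro g _
  rw [← mul_assoc, mul_comm (m : ℂ), mul_assoc]
  congr 1
  rw [Finset.mul_sum]
  apply Finset.sum_congr rfl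
  intro σ _
  rw [Finset.mul_sum]
  apply Finset.sum_congr rfl
  intro τ _
  push_cast
  ring

/-- `per - det` -/
noncomputable def Dd (A : Matrix (Fin 4) (Fin 4) ℂ) : ℂ :=
  ∑ g : S4, (∏ j, A (g j) j) * (1 - (sg g : ℂ))

lemma QK_sg (A : Matrix (Fin 4) (Fin 4) ℂ) (x : S4 → ℂ) :
    QK A x (fun g σ τ => sg σ * sg τ * (1 - sg g)) =
      (conj (∑ τ, (sg τ : ℂ) * x τ) * (∑ τ, (sg τ : ℂ) * x τ)) * Dd A := by
  unfold QK Dd
  rw [Finset.mul_sum]
  apply Finset.sum_congr rfl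
  intro g _
  rw [map_sum, Finset.sum_mul_sum, mul_comm _ ((∏ j, A (g j) j) * _), mul_assoc]
  congr 1
  rw [Finset.mul_sum]
  apply Finset.sum_congr rfl
  intro σ _
  rw [Finset.mul_sum]
  apply Finset.sum_congr rfl
  intro τ _
  push_cast
  rw [map_mul]
  have : conj ((sg σ : ℤ) : ℂ) = (sg σ : ℂ) := by simp
  rw [this]
  ring

lemma Gf_const (A : Matrix (Fin 4) (Fin 4) ℂ) (m : ℂ) :
    Gf (fun g => g) sg A (fun _ => m) = 4 * (conj m * m) * Dd A := by
  unfold Gf Dd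
  rw [Finset.mul_sum]
  apply Finset.sum_congr rfl
  intro g _
  simp only [Finset.sum_const, Finset.card_univ, Fintype.card_fin, nsmul_eq_mul]
  push_cast
  ring

lemma Dd_nonneg {A : Matrix (Fin 4) (Fin 4) ℂ} (hA : A.PosSemidef) : 0 ≤ (Dd A).re := by
  have h := form211 hA (fun _ => 1)
  rw [Gf_const] at h
  simp at h
  linarith

lemma Gf_shift (A : Matrix (Fin 4) (Fin 4) ℂ) (w : Fin 4 → ℂ) (m : ℂ) (hm : ∑ a, w a = 4 * m) :
    Gf (fun g => g) sg A w =
      Gf (fun g => g) sg A (fun a => w a - m) + 4 * (conj m * m) * Dd A := by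
  rw [← Gf_const]
  unfold Gf
  rw [← Finset.sum_add_distrib]
  apply Finset.sum_congr rfl
  intro g _
  rw [← mul_add]
  congr 1
  have e1 : ∀ h : S4, ∑ a, conj (w (h a)) * w a =
      ∑ a, conj (w (h a) - m) * (w a - m) + ∑ _a : Fin 4, conj m * m := by
    intro h
    have h2 : ∑ a, conj (w (h a)) = conj (4 * m) := by
      rw [Equiv.sum_comp h (fun a => conj (w a)), ← map_sum, hm]
    have h3 : ∑ a, conj (w (h a) - m) * (w a - m) = ∑ a, conj (w (h a)) * w a -
        (∑ a, conj (w (h a))) * m - conj m * ∑ a, w a + ∑ _a : Fin 4, conj m * m := by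
      rw [Finset.sum_mul, Finset.mul_sum, ← Finset.sum_sub_distrib, ← Finset.sum_sub_distrib,
        ← Finset.sum_add_distrib]
      apply Finset.sum_congr rfl
      intro a _
      rw [map_sub]
      ring
    rw [h3, h2, hm]
    simp only [Finset.sum_const, Finset.card_univ, Fintype.card_fin, nsmul_eq_mul, map_mul]
    have : conj (4 : ℂ) = 4 := map_ofNat (starRingEnd ℂ) 4
    rw [this]
    push_cast
    ring
  have e2 := e1 1
  simp only [Equiv.Perm.coe_one, id] at e2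
  rw [e2, e1 g]
  ring

lemma Vc_sum (ρ : S4 → S4) (y : S4 → ℂ) (c : Fin 4) : ∑ a, Vc ρ y c a = ∑ τ, y τ := by
  unfold Vc
  rw [Finset.sum_comm]
  apply Finset.sum_congr rfl
  intro τ _
  rw [Finset.sum_ite_eq, if_pos (Finset.mem_univ _)]

theorem QK_main {A : Matrix (Fin 4) (Fin 4) ℂ} (hA : A.PosSemidef) (x : S4 → ℂ) :
    0 ≤ (QK A x (fun g σ τ => (if σ = τ then 1 else 0) - (if σ = g * τ then 1 else 0))).re := by
  set y : S4 → ℂ := fun τ => (sg τ : ℂ) * x τ with hy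
  set s : ℂ := ∑ τ, y τ with hs
  have h31 := sum_Gf (ρ := fun g => g) (fun _ _ => rfl) (fun _ => 1) A x
  have h22 := sum_Gf rho22_mul (fun _ => 1) A x
  have h211 := sum_Gf (ρ := fun g => g) (fun _ _ => rfl) sg A y
  have hsg := QK_sg A x
  rw [hy, QK_sgx] at h211
  have hmain : (24 : ℂ) * QK A x (fun g σ τ => (if σ = τ then 1 else 0) -
      (if σ = g * τ then 1 else 0)) = 3 * QK A x (fun g σ τ => Nn (fun g => g) σ τ -
        1 * Nn (fun g => g) σ (g * τ)) + 3 * QK A x (fun g σ τ => sg σ * sg τ *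
        (Nn (fun g => g) σ τ - sg g * Nn (fun g => g) σ (g * τ))) +
        2 * QK A x (fun g σ τ => Nn rho22 σ τ - 1 * Nn rho22 σ (g * τ)) -
        2 * QK A x (fun g σ τ => sg σ * sg τ * (1 - sg g)) := by
    have e1 := QK_smul A x (fun g σ τ => (if σ = τ then 1 else 0) -
      (if σ = g * τ then 1 else 0)) 24
    have e2 := QK_smul A x (fun g σ τ => Nn (fun g => g) σ τ -
        1 * Nn (fun g => g) σ (g * τ)) 3
    have e3 := QK_smul A x (fun g σ τ => sg σ * sg τ *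
        (Nn (fun g => g) σ τ - sg g * Nn (fun g => g) σ (g * τ))) 3
    have e4 := QK_smul A x (fun g σ τ => Nn rho22 σ τ - 1 * Nn rho22 σ (g * τ)) 2
    have e5 := QK_smul A x (fun g σ τ => sg σ * sg τ * (1 - sg g)) (-2)
    push_cast at e1 e2 e3 e4 e5
    rw [← e1, ← e2, ← e3, ← e4, sub_eq_add_neg, ← neg_mul, ← e5, ← QK_add, ← QK_add, ← QK_add]
    congr 1
    funext g σ τ
    have i1 := ident σ τ
    have i2 := ident σ (g * τ)
    rw [sg_mul] at i2
    rw [mul_sub, i1, i2]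
    ring
  rw [← h31, ← h211, ← h22, hsg] at hmain
  have hW : ∑ c, Gf (fun g => g) sg A (Vc (fun g => g) y c) =
      ∑ c, Gf (fun g => g) sg A (fun a => Vc (fun g => g) y c a - s / 4) +
        (conj s * s) * Dd A := by
    have h1 : ∀ c, Gf (fun g => g) sg A (Vc (fun g => g) y c) =
        Gf (fun g => g) sg A (fun a => Vc (fun g => g) y c a - s / 4) +
          4 * (conj (s / 4) * (s / 4)) * Dd A := by
      intro c
      apply Gf_shift
      rw [Vc_sum, ← hs]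
      ring
    rw [Finset.sum_congr rfl (fun c _ => h1 c), Finset.sum_add_distrib]
    congr 1
    simp only [Finset.sum_const, Finset.card_univ, Fintype.card_fin, nsmul_eq_mul, map_div₀]
    have : conj (4 : ℂ) = 4 := map_ofNat (starRingEnd ℂ) 4
    rw [this]
    push_cast
    ring
  rw [hW] at hmain
  have p1 : 0 ≤ (∑ c, Gf (fun g => g) (fun _ => 1) A (Vc (fun g => g) x c)).re := by
    rw [Complex.re_sum]
    exact Finset.sum_nonneg (fun c _ => form31 hA _)
  have p2 : 0 ≤ (∑ c, Gf rho22 (fun _ => 1) A (Vc rho22 x c)).re := by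
    rw [Complex.re_sum]
    exact Finset.sum_nonneg (fun c _ => form22 hA _)
  have p3 : 0 ≤ (∑ c, Gf (fun g => g) sg A (fun a => Vc (fun g => g) y c a - s / 4)).re := by
    rw [Complex.re_sum]
    exact Finset.sum_nonneg (fun c _ => form211 hA _)
  have p4 : 0 ≤ ((conj s * s) * Dd A).re := by
    rw [← Complex.normSq_eq_conj_mul_self, Complex.re_ofReal_mul]
    exact mul_nonneg (Complex.normSq_nonneg _) (Dd_nonneg hA)
  have h24 : ((24 : ℂ) * QK A x (fun g σ τ => (if σ = τ then 1 else 0) -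
      (if σ = g * τ then 1 else 0))).re = 24 * (QK A x (fun g σ τ => (if σ = τ then 1 else 0) -
      (if σ = g * τ then 1 else 0))).re := by
    have : (24 : ℂ) = ((24 : ℝ) : ℂ) := by norm_num
    rw [this, Complex.re_ofReal_mul]
  have h5 := congrArg Complex.re hmain
  rw [h24] at h5
  have h6 : (3 * ∑ c, Gf (fun g => g) (fun _ => 1) A (Vc (fun g => g) x c) +
      3 * (∑ c, Gf (fun g => g) sg A (fun a => Vc (fun g => g) y c a - s / 4) +
        (conj s * s) * Dd A) + 2 * ∑ c, Gf rho22 (fun _ => 1) A (Vc rho22 x c) -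
        2 * ((conj s * s) * Dd A)).re =
      3 * (∑ c, Gf (fun g => g) (fun _ => 1) A (Vc (fun g => g) x c)).re +
      3 * (∑ c, Gf (fun g => g) sg A (fun a => Vc (fun g => g) y c a - s / 4)).re +
      2 * (∑ c, Gf rho22 (fun _ => 1) A (Vc rho22 x c)).re + ((conj s * s) * Dd A).re := by
    simp only [Complex.add_re, Complex.sub_re]
    have k3 : ∀ z : ℂ, (3 * z).re = 3 * z.re := by
      intro z
      have : (3 : ℂ) = ((3 : ℝ) : ℂ) := by norm_num
      rw [this, Complex.re_ofReal_mul]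
    have k2 : ∀ z : ℂ, (2 * z).re = 2 * z.re := by
      intro z
      have : (2 : ℂ) = ((2 : ℝ) : ℂ) := by norm_num
      rw [this, Complex.re_ofReal_mul]
    rw [k3, k3, k2, k2, Complex.add_re]
    ring
  rw [h6] at h5
  linarith

end Pool.Agent.Lib.MP_61cf81_al
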